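import Pool.Agent.V7.Top.Asm

/-!
# KZ4, TOP: exactness of the evaluation of vector valued forms for `N ≥ N₀ + 1` points

As `V7/Top/Main.lean` and `V7/Top/Asm.lean`, without the lower bound for the dimension: if the space for
`N ≥ N₀ + 1` points is not zero, then all drops are `b`.
-/

namespace Pool.Agent.KZ.Top

open Module MvPolynomial Pool.Agent.H51.TB Pool.Agent.V7.Top

variable {R b m M : ℕ}

/-- As `coord_exact`, for `N ≥ N₀ + 1` without a lower bound for `R`. -/
theorem coord_exact' {S : Set ℂ} (hS : S.Countable) {H : Fin R → Fin b → Ex m M → ℂ}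
    (hH : ∀ D ∈ Kd S, ∀ j a α, D (H j a α) = 0)
    (hinj : ∀ u : Fin R → ℂ, (∀ a α, GH H u a α = 0) → u = 0) (N₀ : ℕ)
    (h1 : (m + M - 1).choose M < N₀ + (m - (2 * b - 2) + M - 1).choose M)
    (h2 : ∀ E : Submodule ℂ (Fin b → ℂ), E ≠ ⊥ → E ≠ ⊤ →
      finrank ℂ (secU H E) + finrank ℂ E * (b - finrank ℂ E) < finrank ℂ E * N₀)
    (N : ℕ) (h3 : N₀ + 1 ≤ N) :
    ∃ l : Fin N → Fin m → ℂ, finrank ℂ (VS H (Set.range l)) ≤ R - b * N := by
  classical
  have hN' := h3
  obtain ⟨t, ht⟩ := exists_gen hS ((Fin N × Fin m) ⊕ Fin R)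
  let L : Fin N → Fin m → ℂ := fun s i => t (Sum.inl (s, i))
  let W : Finset (Fin N) → Submodule ℂ (Fin R → ℂ) := fun A => VS H (L '' A)
  have hWi : ∀ (A : Finset (Fin N)) (q : Fin N), W (insert q A) = VS H (insert (L q) (L '' A)) := by
    intro A q
    simp only [W, Finset.coe_insert, Set.image_insert_eq]
  have hdrop : ∀ (A : Finset (Fin N)) (q : Fin N), q ∉ A → N₀ ≤ A.card →
      W (insert q A) ≠ ⊥ → finrank ℂ (W (insert q A)) + b ≤ finrank ℂ (W A) := by
    intro A q hq hA hne
    have hr : Set.range (fun s : A => L s) = L '' A := by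
      ext x
      constructor
      · rintro ⟨s, rfl⟩
        exact ⟨s, s.2, rfl⟩
      · rintro ⟨s, hs, rfl⟩
        exact ⟨⟨s, hs⟩, rfl⟩
    let f : (A × Fin m) ⊕ (Fin m ⊕ Fin R) → (Fin N × Fin m) ⊕ Fin R :=
      Sum.elim (fun p => Sum.inl (p.1.1, p.2)) (Sum.elim (fun i => Sum.inl (q, i)) Sum.inr)
    have hf : Function.Injective f := by
      rintro (⟨⟨s, hs⟩, i⟩ | (i | j)) (⟨⟨s', hs'⟩, i'⟩ | (i' | j')) h
      · simp only [f, Sum.elim_inl, Sum.inl.injEq, Prod.mk.injEq] at h
        obtain ⟨h4, h5⟩ := h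
        subst h4
        subst h5
        rfl
      · simp only [f, Sum.elim_inl, Sum.elim_inr, Sum.inl.injEq, Prod.mk.injEq] at h
        exact absurd (h.1 ▸ hs) hq
      · simp [f] at h
      · simp only [f, Sum.elim_inl, Sum.elim_inr, Sum.inl.injEq, Prod.mk.injEq] at h
        exact absurd (h.1.symm ▸ hs') hq
      · simp only [f, Sum.elim_inl, Sum.elim_inr, Sum.inl.injEq, Prod.mk.injEq, true_and] at h
        rw [h]
      · simp [f] at h
      · simp [f] at h
      · simp [f] at h
      · simp only [f, Sum.elim_inr, Sum.inr.injEq] at h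
        rw [h]
    have hgen : Gen S (Sum.elim (fun p : A × Fin m => L p.1 p.2)
        (Sum.elim (L q) (fun j => t (Sum.inr j)))) := by
      have h4 := ht.comp f hf
      have h5 : (fun k => t (f k)) = Sum.elim (fun p : A × Fin m => L p.1 p.2)
          (Sum.elim (L q) (fun j => t (Sum.inr j))) := by
        funext k
        rcases k with p | (i | j) <;> rfl
      rw [h5] at h4
      exact h4
    have h4 := main_claim hH hinj (fun s : A => L s) (L q) (fun j => t (Sum.inr j)) hgen N₀
      (by rw [Fintype.card_coe]; exact hA) h1 h2 (by rw [hr, ← hWi]; exact hne)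
    rw [hr, ← hWi] at h4
    exact h4
  have hanti : ∀ A : Finset (Fin N), W Finset.univ ≤ W A := fun A u hu y hy =>
    hu y (Set.image_mono (Finset.coe_subset.2 (Finset.subset_univ A)) hy)
  refine ⟨L, ?_⟩
  have hrange : Set.range L = L '' ((Finset.univ : Finset (Fin N)) : Set (Fin N)) := by
    rw [Finset.coe_univ, Set.image_univ]
  rw [hrange]
  by_cases hz : W Finset.univ = ⊥
  · have h4 : finrank ℂ (W Finset.univ) = 0 := by rw [hz, finrank_bot]
    have h5 : finrank ℂ (W Finset.univ) =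
        finrank ℂ (VS H (L '' ((Finset.univ : Finset (Fin N)) : Set (Fin N)))) := rfl
    omega
  have hnz : ∀ A : Finset (Fin N), W A ≠ ⊥ := fun A hA => hz (eq_bot_iff.2 (hA ▸ hanti A))
  have hP : ∀ (A : Finset (Fin N)) (q : Fin N), q ∉ A → A.card = N₀ →
      finrank ℂ (W (insert q A)) + b ≤ finrank ℂ (W A) := by
    intro A q hq hA
    exact hdrop A q hq hA.ge (hnz _)
  have hsmall : ∀ (A : Finset (Fin N)) (q : Fin N), q ∉ A → A.card ≤ N₀ →
      finrank ℂ (W (insert q A)) + b ≤ finrank ℂ (W A) := by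
    intro A q hq hA
    have h4 : A ⊆ Finset.univ.erase q := by
      intro x hx
      rw [Finset.mem_erase]
      refine ⟨?_, Finset.mem_univ _⟩
      rintro rfl
      exact hq hx
    have h5 : N₀ ≤ (Finset.univ.erase q).card := by
      rw [Finset.card_erase_of_mem (Finset.mem_univ _), Finset.card_univ, Fintype.card_fin]
      omega
    obtain ⟨B, hAB, hB, hBc⟩ := Finset.exists_subsuperset_card_eq h4 hA h5
    have hqB : q ∉ B := fun h => (Finset.mem_erase.1 (hB h)).1 rfl
    have h6 := hP B q hqB hBc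
    have h7 := VS_drop_mono H (A := L '' A) (B := L '' B)
      (Set.image_mono (Finset.coe_subset.2 hAB)) (L q)
    rw [← hWi, ← hWi] at h7
    have h8 : finrank ℂ (W A) = finrank ℂ (VS H (L '' A)) := rfl
    have h9 : finrank ℂ (W B) = finrank ℂ (VS H (L '' B)) := rfl
    omega
  have hmain : ∀ A : Finset (Fin N), finrank ℂ (W A) ≤ R - b * A.card := by
    intro A
    induction A using Finset.induction_on with
    | empty =>
      have h4 := Submodule.finrank_le (W ∅)
      rw [finrank_fintype_fun_eq_card, Fintype.card_fin] at h4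
      rw [Finset.card_empty, mul_zero, Nat.sub_zero]
      exact h4
    | insert q A hq ih =>
      rw [Finset.card_insert_of_notMem hq, mul_add, mul_one]
      by_cases hA : A.card ≤ N₀
      · have h4 := hsmall A q hq hA
        omega
      · have h4 := hdrop A q hq (by omega) (hnz _)
        omega
  have h4 := hmain Finset.univ
  rw [Finset.card_univ, Fintype.card_fin] at h4
  exact h4

/-- Exactness of the evaluation of vector valued forms at general points: if the slope condition
`h2` holds, `N` general points impose `min (b * N) (dim V)` conditions on `V`. -/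
theorem top_exact' (V : Submodule ℂ (Fin b → MvPolynomial (Fin m) ℂ)) [FiniteDimensional ℂ V]
    (hV : ∀ G ∈ V, ∀ a, (G a).IsHomogeneous M) (N₀ : ℕ)
    (h1 : (m + M - 1).choose M < N₀ + (m - (2 * b - 2) + M - 1).choose M)
    (h2 : ∀ E : Submodule ℂ (Fin b → ℂ), E ≠ ⊥ → E ≠ ⊤ →
      finrank ℂ (secE V E) + finrank ℂ E * (b - finrank ℂ E) < finrank ℂ E * N₀)
    (N : ℕ) (h3 : N₀ + 1 ≤ N) :
    ∃ l : Fin N → Fin m → ℂ, finrank ℂ (vanish V l) ≤ finrank ℂ V - b * N := by
  classical
  let B := Module.finBasis ℂ V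
  let H : Fin (finrank ℂ V) → Fin b → Ex m M → ℂ :=
    fun j a α => coeff α.1 (((B j : V) : Fin b → MvPolynomial (Fin m) ℂ) a)
  let S : Set ℂ := Set.range (fun q : Fin (finrank ℂ V) × Fin b × Ex m M => H q.1 q.2.1 q.2.2)
  have hS : S.Countable := Set.countable_range _
  have hH : ∀ D ∈ Kd S, ∀ j a α, D (H j a α) = 0 := fun D hD j a α => hD _ ⟨(j, a, α), rfl⟩
  let f : (Fin (finrank ℂ V) → ℂ) →ₗ[ℂ] (Fin b → MvPolynomial (Fin m) ℂ) :=
    V.subtype.comp B.equivFun.symm.toLinearMap
  have hf : Function.Injective f :=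
    Subtype.val_injective.comp B.equivFun.symm.injective
  have hfV : ∀ u, f u ∈ V := fun u => (B.equivFun.symm u).2
  have hfP : ∀ u a, f u a = Pg (GH H u a) := by
    intro u a
    have h4 : f u a = ∑ j, u j • ((B j : V) : Fin b → MvPolynomial (Fin m) ℂ) a := by
      show ((B.equivFun.symm u : V) : Fin b → MvPolynomial (Fin m) ℂ) a = _
      rw [Basis.equivFun_symm_apply, Submodule.coe_sum, Finset.sum_apply]
      rfl
    ext α
    by_cases h : α ∈ Finset.finsuppAntidiag (Finset.univ : Finset (Fin m)) M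
    · have h5 := coeff_Pg (GH H u a) ⟨α, h⟩
      simp only at h5
      rw [h5, GH_apply, h4, coeff_sum]
      apply Finset.sum_congr rfl
      intro j _
      rw [coeff_smul, smul_eq_mul]
    · rw [coeff_Pg' _ _ h]
      apply (hV _ (hfV u) a).coeff_eq_zero
      intro h5
      apply h
      rw [Finset.mem_finsuppAntidiag]
      refine ⟨?_, Finset.subset_univ _⟩
      rw [← h5, Finsupp.degree_eq_sum]
  have hinj : ∀ u : Fin (finrank ℂ V) → ℂ, (∀ a α, GH H u a α = 0) → u = 0 := by
    intro u hu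
    apply hf
    rw [map_zero]
    funext a
    rw [hfP, Pi.zero_apply, ← map_zero Pg]
    congr 1
    funext α
    exact hu a α
  have hsurj : ∀ G ∈ V, ∃ u, f u = G := by
    intro G hG
    refine ⟨B.equivFun ⟨G, hG⟩, ?_⟩
    show ((B.equivFun.symm (B.equivFun ⟨G, hG⟩) : V) : Fin b → MvPolynomial (Fin m) ℂ) = G
    rw [LinearEquiv.symm_apply_apply]
  have hsec : ∀ E : Submodule ℂ (Fin b → ℂ), finrank ℂ (secU H E) = finrank ℂ (secE V E) := by
    intro E
    have h4 : (secU H E).map f = secE V E := by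
      ext G
      constructor
      · rintro ⟨u, hu, rfl⟩
        refine ⟨hfV u, fun α => ?_⟩
        by_cases h : α ∈ Finset.finsuppAntidiag (Finset.univ : Finset (Fin m)) M
        · have h5 := hu ⟨α, h⟩
          have h6 : (fun a => coeff α (f u a)) = col H u ⟨α, h⟩ := by
            funext a
            rw [hfP]
            exact coeff_Pg (GH H u a) ⟨α, h⟩
          rw [h6]
          exact h5
        · have h6 : (fun a => coeff α (f u a)) = 0 := by
            funext a
            rw [hfP, coeff_Pg' _ _ h]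
            rfl
          rw [h6]
          exact E.zero_mem
      · rintro ⟨hG, hG'⟩
        obtain ⟨u, rfl⟩ := hsurj G hG
        refine ⟨u, fun α => ?_, rfl⟩
        have h6 : (fun a => coeff α.1 (f u a)) = col H u α := by
          funext a
          rw [hfP]
          exact coeff_Pg (GH H u a) α
        rw [← h6]
        exact hG' α.1
    rw [← h4]
    exact (Submodule.equivMapOfInjective f hf (secU H E)).finrank_eq
  obtain ⟨l, hl⟩ := coord_exact' hS hH hinj N₀ h1 (fun E hE hE' => by
    rw [hsec]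
    exact h2 E hE hE') N h3
  refine ⟨l, ?_⟩
  have h4 : (VS H (Set.range l)).map f = vanish V l := by
    ext G
    constructor
    · rintro ⟨u, hu, rfl⟩
      refine ⟨hfV u, fun s a => ?_⟩
      rw [hfP]
      exact hu (l s) ⟨s, rfl⟩ a
    · rintro ⟨hG, hG'⟩
      obtain ⟨u, rfl⟩ := hsurj G hG
      refine ⟨u, ?_, rfl⟩
      rintro x ⟨s, rfl⟩ a
      rw [← hfP]
      exact hG' s a
  rw [← h4, ← (Submodule.equivMapOfInjective f hf (VS H (Set.range l))).finrank_eq]
  exact hl

/-- The points of type `top` impose the expected number of conditions on the solutions for the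
points `rest`, if their conditions are the vanishing of a vector valued form at a point. -/
theorem assemble' {E ν T : Type} [Fintype E] (S : Sys E ν T) {κ : Type} (rest : κ → T) (top : T)
    {b m M : ℕ} (Γ : (E → ℂ) →ₗ[ℂ] (Fin b → MvPolynomial (Fin m) ℂ))
    (hhom : ∀ f a, (Γ f a).IsHomogeneous M) (pos : (Fin m → ℂ) → ν → ℂ)
    (htop : ∀ (z : Fin m → ℂ) (f : E → ℂ), f ∈ S.V (fun _ : Unit => top) (fun _ => pos z) →
      ∀ a, eval z (Γ f a) = 0)
    (p₀ : κ → ν → ℂ) (hinj : ∀ f ∈ S.V rest p₀, Γ f = 0 → f = 0) (N₀ : ℕ)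
    (h1 : (m + M - 1).choose M < N₀ + (m - (2 * b - 2) + M - 1).choose M)
    (h2 : ∀ F : Submodule ℂ (Fin b → ℂ), F ≠ ⊥ → F ≠ ⊤ →
      finrank ℂ (secE ((S.V rest p₀).map Γ) F) + finrank ℂ F * (b - finrank ℂ F) <
        finrank ℂ F * N₀)
    (N : ℕ) (h3 : N₀ + 1 ≤ N) :
    S.gd (Sum.elim rest fun _ : Fin N => top) ≤ finrank ℂ (S.V rest p₀) - b * N := by
  classical
  set V := (S.V rest p₀).map Γ with hV
  have hfin : FiniteDimensional ℂ V := inferInstance
  let Γ' : S.V rest p₀ →ₗ[ℂ] (Fin b → MvPolynomial (Fin m) ℂ) := Γ.domRestrict _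
  have hΓ' : Function.Injective Γ' := by
    rw [← LinearMap.ker_eq_bot, eq_bot_iff]
    intro f hf
    rw [Submodule.mem_bot]
    exact Subtype.ext (hinj f.1 f.2 hf)
  have hfr : finrank ℂ V = finrank ℂ (S.V rest p₀) := by
    have h4 : LinearMap.range Γ' = V := LinearMap.range_domRestrict _ _
    rw [← h4]
    exact LinearMap.finrank_range_of_inj hΓ'
  obtain ⟨l, hl⟩ := top_exact' V (M := M) (by
    rintro _ ⟨f, _, rfl⟩ a
    exact hhom f a) N₀ h1 h2 N h3
  rw [hfr] at hl
  refine le_trans ?_ hl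
  refine (gd_le S _ (Sum.elim p₀ fun s => pos (l s))).trans ?_
  have hle : ∀ f ∈ S.V (Sum.elim rest fun _ : Fin N => top) (Sum.elim p₀ fun s => pos (l s)),
      f ∈ S.V rest p₀ ∧ Γ f ∈ vanish V l := by
    intro f hf
    rw [V_elim, Submodule.mem_inf] at hf
    refine ⟨hf.1, Submodule.mem_map_of_mem hf.1, fun s a => htop (l s) f ?_ a⟩
    intro _ r
    exact hf.2 s r
  have hfd : FiniteDimensional ℂ (vanish V l) :=
    Submodule.finiteDimensional_of_le (S₂ := V) fun G hG => hG.1
  let Δ : S.V (Sum.elim rest fun _ : Fin N => top) (Sum.elim p₀ fun s => pos (l s)) →ₗ[ℂ]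
      vanish V l := (Γ.domRestrict _).codRestrict (vanish V l) fun f => (hle f.1 f.2).2
  refine LinearMap.finrank_le_finrank_of_injective (f := Δ) ?_
  rw [← LinearMap.ker_eq_bot, eq_bot_iff]
  intro f hf
  rw [Submodule.mem_bot]
  have h4 : Γ f.1 = 0 := congrArg Subtype.val hf
  exact Subtype.ext (hinj f.1 (hle f.1 f.2).1 h4)


end Pool.Agent.KZ.Top
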