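import Pool.Agent.KZ.Top.Exact
import Pool.Agent.KZ.Defs

/-!
# KZ4, TOP: the relative form

All coefficient vectors of the solutions at the position `p₀` lie in a subspace `B`; the slopes are
compared with `B`.
-/

set_option autoImplicit false
set_option linter.unusedSectionVars false

namespace Pool.Agent.KZ.Top

open Finset Module MvPolynomial Pool.Agent.H51.TB Pool.Agent.V7.Top

variable {ν : Type} [Fintype ν] [DecidableEq ν] {k c m : ℕ}

/-- A linear map in coordinates, on vector valued forms. -/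
noncomputable def mapv {I : Type} [Fintype I] [DecidableEq I] {b : ℕ}
    (π : (I → ℂ) →ₗ[ℂ] (Fin b → ℂ)) :
    (I → MvPolynomial (Fin m) ℂ) →ₗ[ℂ] (Fin b → MvPolynomial (Fin m) ℂ) :=
  LinearMap.pi fun j => ∑ a : I, π (Pi.single a 1) j • LinearMap.proj a

theorem mapv_apply {I : Type} [Fintype I] [DecidableEq I] {b : ℕ}
    (π : (I → ℂ) →ₗ[ℂ] (Fin b → ℂ)) (G : I → MvPolynomial (Fin m) ℂ) (j : Fin b) :
    mapv π G j = ∑ a : I, π (Pi.single a 1) j • G a := by
  simp [mapv]

theorem coeff_mapv {I : Type} [Fintype I] [DecidableEq I] {b : ℕ}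
    (π : (I → ℂ) →ₗ[ℂ] (Fin b → ℂ)) (G : I → MvPolynomial (Fin m) ℂ) (α : Fin m →₀ ℕ) :
    (fun j => coeff α (mapv π G j)) = π fun a => coeff α (G a) := by
  funext j
  rw [mapv_apply, coeff_sum]
  have h1 : (fun a => coeff α (G a)) = ∑ a : I, coeff α (G a) • (Pi.single a (1 : ℂ) : I → ℂ) := by
    funext a
    rw [Finset.sum_apply, Finset.sum_eq_single a]
    · simp
    · intro b _ hb
      rw [Pi.smul_apply, Pi.single_eq_of_ne (Ne.symm hb), smul_zero]
    · intro h
      exact absurd (mem_univ a) h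
  rw [h1, map_sum, Finset.sum_apply]
  refine sum_congr rfl fun a _ => ?_
  rw [map_smul, Pi.smul_apply, coeff_smul, smul_eq_mul, smul_eq_mul, mul_comm]

theorem top_rel (φ : (Fin k × Fin c) ⊕ Fin m ≃ ν) {A : Finset (ν → ℕ)} {T ν' : Type}
    (S : Sys {e // e ∈ A} ν' T) {κ : Type} (rest : κ → T) (top : T) {M : ℕ}
    (hhom : ∀ (f : {e // e ∈ A} → ℂ) a, (Gam φ f a).IsHomogeneous M)
    (pos : (Fin m → ℂ) → ν' → ℂ)
    (htop : ∀ (z : Fin m → ℂ) (f : {e // e ∈ A} → ℂ),
      f ∈ S.V (fun _ : Unit => top) (fun _ => pos z) → ∀ a, eval z (Gam φ f a) = 0)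
    (p₀ : κ → ν' → ℂ) (B : Submodule ℂ ((Fin k → Fin c) → ℂ))
    (hB : ∀ f ∈ S.V rest p₀, ∀ α, (fun a => coeff α (Gam φ f a)) ∈ B)
    (hinj : ∀ f ∈ S.V rest p₀, Gam φ f = 0 → f = 0) (N₀ : ℕ)
    (h1 : (m + M - 1).choose M < N₀ + (m - (2 * finrank ℂ B - 2) + M - 1).choose M)
    (h2 : ∀ F : Submodule ℂ ((Fin k → Fin c) → ℂ), F ≤ B → F ≠ ⊥ → F ≠ B →
      finrank ℂ (SF φ (S.V rest p₀) F) + finrank ℂ F * (finrank ℂ B - finrank ℂ F) <
        finrank ℂ F * N₀)
    (N : ℕ) (h3 : N₀ + 1 ≤ N) :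
    S.gd (Sum.elim rest fun _ : Fin N => top) ≤ finrank ℂ (S.V rest p₀) - finrank ℂ B * N := by
  classical
  obtain ⟨l, hl⟩ := LinearMap.exists_leftInverse_of_injective B.subtype (by
    rw [Submodule.ker_subtype])
  let e : B ≃ₗ[ℂ] (Fin (finrank ℂ B) → ℂ) := (Module.finBasis ℂ B).equivFun
  let π : ((Fin k → Fin c) → ℂ) →ₗ[ℂ] (Fin (finrank ℂ B) → ℂ) := e.toLinearMap ∘ₗ l
  have hπB : ∀ x : B, π x = e x := by
    intro x
    show e (l x) = e x
    have h4 : l (B.subtype x) = x := LinearMap.congr_fun hl x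
    exact congrArg e h4
  have hπ0 : ∀ x ∈ B, π x = 0 → x = 0 := by
    intro x hx h
    have h4 := hπB ⟨x, hx⟩
    have h5 : π x = e ⟨x, hx⟩ := h4
    rw [h5] at h
    have h6 := (LinearEquiv.map_eq_zero_iff e).1 h
    exact congrArg Subtype.val h6
  have hπs : ∀ y, ∃ x ∈ B, π x = y := by
    intro y
    refine ⟨(e.symm y : B), (e.symm y).2, ?_⟩
    rw [hπB, LinearEquiv.apply_symm_apply]
  refine assemble' S rest top (M := M) (mapv π ∘ₗ Gam φ) ?_ pos ?_ p₀ ?_ N₀ h1 ?_ N h3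
  · intro f j
    show (mapv π (Gam φ f) j).IsHomogeneous M
    rw [mapv_apply]
    refine IsHomogeneous.sum _ _ _ fun a _ => ?_
    rw [smul_eq_C_mul]
    have h4 := (isHomogeneous_C (Fin m) (π (Pi.single a 1) j)).mul (hhom f a)
    rwa [zero_add] at h4
  · intro z f hf j
    show eval z (mapv π (Gam φ f) j) = 0
    rw [mapv_apply, map_sum]
    refine sum_eq_zero fun a _ => ?_
    rw [smul_eval, htop z f hf a, mul_zero]
  · intro f hf h4
    refine hinj f hf (funext fun a => ?_)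
    ext α
    have h5 : π (fun a => coeff α (Gam φ f a)) = 0 := by
      rw [← coeff_mapv]
      have h6 : mapv π (Gam φ f) = 0 := h4
      rw [h6]
      funext j
      exact coeff_zero _
    exact congrFun (hπ0 _ (hB f hf α) h5) a
  · intro F' hF' hF''
    set F : Submodule ℂ ((Fin k → Fin c) → ℂ) := B ⊓ F'.comap π with hF
    have hmap : F.map π = F' := by
      refine le_antisymm ?_ ?_
      · rintro _ ⟨x, hx, rfl⟩
        exact hx.2
      · intro y hy
        obtain ⟨x, hx, rfl⟩ := hπs y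
        exact ⟨x, ⟨hx, hy⟩, rfl⟩
    have hfr : finrank ℂ F = finrank ℂ F' := by
      have h4 := LinearMap.finrank_range_add_finrank_ker (π.domRestrict F)
      have h5 : LinearMap.range (π.domRestrict F) = F' := by
        rw [LinearMap.range_domRestrict, hmap]
      have h6 : LinearMap.ker (π.domRestrict F) = ⊥ := by
        rw [eq_bot_iff]
        rintro ⟨x, hx⟩ h
        rw [Submodule.mem_bot]
        exact Subtype.ext (hπ0 x hx.1 h)
      rw [h5, h6, finrank_bot, add_zero] at h4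
      exact h4.symm
    have hb : F ≠ ⊥ := by
      intro h
      rw [h, finrank_bot] at hfr
      exact hF' (Submodule.finrank_eq_zero.1 hfr.symm)
    have ht : F ≠ B := by
      intro h
      apply hF''
      rw [eq_top_iff]
      intro y _
      obtain ⟨x, hx, rfl⟩ := hπs y
      rw [← h] at hx
      exact hx.2
    have h4 := h2 F inf_le_left hb ht
    rw [hfr] at h4
    refine lt_of_le_of_lt ?_ h4
    gcongr
    refine le_trans ?_ (Submodule.finrank_map_le (mapv π ∘ₗ Gam φ) _)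
    refine Submodule.finrank_mono ?_
    rintro G ⟨⟨f, hf, rfl⟩, h5⟩
    refine ⟨f, ⟨hf, fun α => ⟨hB f hf α, ?_⟩⟩, rfl⟩
    have h6 := h5 α
    have h7 : (fun j => coeff α ((mapv π ∘ₗ Gam φ) f j)) = π fun a => coeff α (Gam φ f a) :=
      coeff_mapv π (Gam φ f) α
    rw [h7] at h6
    exact h6

end Pool.Agent.KZ.Top
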