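import Pool.Agent.KZ.Top.Stmt

/-!
# KZ4, TOP: CV2

The `T` rank one functionals of the triple points off `L_0` and `L_1` are independent for general
positions.
-/

set_option autoImplicit false
set_option linter.unusedSectionVars false

namespace Pool.Agent.KZ

open Finset Module MvPolynomial Pool.Agent.H51.TB Pool.Agent.H54.V7 Pool.Agent.V7.ST
open Pool.Agent.V7 (msk Ex blk mem_Ex)
open Pool.Agent.V7.Top (Gam HasX IsB zp zp_apply Gam_apply exists_HasX sum_split)
open Pool.Agent.H18.Ex (tcr)

/-- The number of the triple points off `L_0` and `L_1` of a kind. -/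
def npt : Kd → ℕ
  | .ord μ I => if μ = 3 ∧ I = ∅ then 1 else 0
  | .pr i I => if i < 2 ∧ I = ∅ then 2 else 0
  | .tr i I => if i < 2 ∧ I = ∅ then 3 else 0

theorem sum_npt {κ : Type} [Fintype κ] (rest : κ → Kd) (a : L2)
    (h : (univ : Finset κ).val.map rest = a.ms) : ∑ i, npt (rest i) = a.T := by
  have h1 : ∑ i, npt (rest i) = (((univ : Finset κ).val.map rest).map npt).sum := by
    rw [Multiset.map_map]
    rfl
  have e1 : ((0 : ℕ) : ℕ) = 0 := rfl
  have hs : ∀ i : ℕ, ({i} : Finset ℕ) ≠ ∅ := fun i => singleton_ne_empty i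
  have hp : ({0, 1} : Finset ℕ) ≠ ∅ := insert_ne_empty _ _
  rw [h1, h]
  unfold L2.ms L2.T
  simp only [Multiset.map_add, Multiset.sum_add, Multiset.map_replicate, Multiset.sum_replicate,
    npt, smul_eq_mul]
  simp
  ring

section

variable {ν : Type} [Fintype ν] [DecidableEq ν] {c m : ℕ}

theorem eval_pt (β : ν → ℕ) (k : Kd) (x : Fin 3) (q : ν × Fin 3 → ℂ) (s : ν) :
    eval q (pt β k x (fun s => (X s : MvPolynomial (ν × Fin 3) ℂ)) s) = pt β k x q s := by
  rcases k with ⟨μ, I⟩ | ⟨i, I⟩ | ⟨i, I⟩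
  · simp only [pt, msk]
    split_ifs
    · rw [map_zero]
    · rw [eval_X]
  · simp only [pt, msk]
    split_ifs
    · rw [map_zero]
    · rw [eval_X]
    · rw [map_neg, eval_X]
    · rw [eval_X]
  · simp only [pt, msk]
    split_ifs
    · rw [map_zero]
    · rw [map_neg, map_add, eval_X, eval_X]
    · rw [eval_X]
    · rw [eval_X]

/-- The tensor of a point. -/
def tp {R : Type} [CommRing R] (φ : (Fin 2 × Fin c) ⊕ Fin m ≃ ν) (q : ν → R) (a : Fin 2 → Fin c) :
    R :=
  q (φ (Sum.inl (0, a 0))) * q (φ (Sum.inl (1, a 1)))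

/-- The system of the tensors. -/
noncomputable def cvS (φ : (Fin 2 × Fin c) ⊕ Fin m ≃ ν) (β : ν → ℕ) :
    Sys (Fin 2 → Fin c) (ν × Fin 3) Kd where
  R := fun k => {x : Fin 3 // x.1 < npt k}
  fin := fun _ => inferInstance
  co := fun k x a => tp φ (pt β k x.1 fun s => (X s : MvPolynomial (ν × Fin 3) ℂ)) a

theorem mem_cvS (φ : (Fin 2 × Fin c) ⊕ Fin m ≃ ν) (β : ν → ℕ) {κ : Type} (rest : κ → Kd)
    (p : κ → ν × Fin 3 → ℂ) (g : (Fin 2 → Fin c) → ℂ) :
    g ∈ (cvS φ β).V rest p ↔ ∀ i, ∀ x : Fin 3, x.1 < npt (rest i) →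
      ∑ a, tp φ (pt β (rest i) x (p i)) a * g a = 0 := by
  rw [Sys.mem_V]
  refine forall_congr' fun i => ?_
  show (∀ x : {x : Fin 3 // x.1 < npt (rest i)}, ∑ a, eval (p i) (tp φ (pt β (rest i) x.1
    fun s => X s) a) * g a = 0) ↔ _
  have h1 : ∀ (x : Fin 3) (a : Fin 2 → Fin c), eval (p i) (tp φ (pt β (rest i) x
      fun s => (X s : MvPolynomial (ν × Fin 3) ℂ)) a) = tp φ (pt β (rest i) x (p i)) a := by
    intro x a
    unfold tp
    rw [map_mul, eval_pt, eval_pt]
  simp only [h1]
  constructor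
  · intro h x hx
    exact h ⟨x, hx⟩
  · intro h x
    exact h x.1 x.2

/-- The cell in the line `r` of the direction `i`. -/
def cell (i : Fin 2) (r s : Fin c) : Fin 2 → Fin c := fun j => if j = i then r else s

/-- The position of an object. -/
def posn (φ : (Fin 2 × Fin c) ⊕ Fin m ≃ ν) (i : Fin 2) (r : Fin c) (s : Fin 3 → Fin c) :
    ν × Fin 3 → ℂ := fun y =>
  Sum.elim (fun x : Fin 2 × Fin c => if x.2 = cell i r (s y.2) x.1 then 1 else 0) (fun _ => 0)
    (φ.symm y.1)

theorem posn_inl (φ : (Fin 2 × Fin c) ⊕ Fin m ≃ ν) (i : Fin 2) (r : Fin c) (s : Fin 3 → Fin c)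
    (x : Fin 2 × Fin c) (y : Fin 3) : posn φ i r s (φ (Sum.inl x), y) =
      if x.2 = cell i r (s y) x.1 then 1 else 0 := by
  simp [posn]

/-- The directions of a kind. -/
def dir : Kd → Fin 2
  | .ord _ _ => 0
  | .pr i _ => if i = 0 then 0 else 1
  | .tr i _ => if i = 0 then 0 else 1

/-- The factors. -/
def fac : Kd → Fin 3 → ℂ
  | .ord _ _, _ => 1
  | .pr _ _, x => if x = 0 then 1 else -1
  | .tr _ _, x => if x = 2 then -2 else 1

theorem fac_ne (k : Kd) (x : Fin 3) : fac k x ≠ 0 := by
  rcases k with ⟨μ, I⟩ | ⟨i, I⟩ | ⟨i, I⟩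
  · simp [fac]
  · simp only [fac]
    split_ifs <;> norm_num
  · simp only [fac]
    split_ifs <;> norm_num

theorem pt_posn {φ : (Fin 2 × Fin c) ⊕ Fin m ≃ ν} {β : ν → ℕ} (hφ : IsB φ β) (k : Kd)
    (x : Fin 3) (hx : x.1 < npt k) (r : Fin c) (s : Fin 3 → Fin c) (j : Fin 2) (t : Fin c) :
    pt β k x (posn φ (dir k) r s) (φ (Sum.inl (j, t))) =
      (if j = dir k then fac k x else 1) * if t = cell (dir k) r (s x) j then 1 else 0 := by
  have hβ : β (φ (Sum.inl (j, t))) = j.1 := hφ.1 (j, t)
  rcases k with ⟨μ, I⟩ | ⟨i, I⟩ | ⟨i, I⟩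
  · simp only [npt] at hx
    split_ifs at hx with h
    · obtain ⟨rfl, rfl⟩ := h
      have hx0 : x = 0 := by
        apply Fin.ext
        show x.1 = 0
        omega
      subst hx0
      simp only [pt, msk, notMem_empty, if_false, posn_inl, fac, ite_self, one_mul]
    · omega
  · simp only [npt] at hx
    split_ifs at hx with h
    · obtain ⟨hi, rfl⟩ := h
      have hd : j = dir (.pr i ∅) ↔ j.1 = i := by
        simp only [dir]
        have := j.2
        split_ifs with h0
        · rw [Fin.ext_iff]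
          show j.1 = 0 ↔ _
          omega
        · rw [Fin.ext_iff]
          show j.1 = 1 ↔ _
          omega
      have hx01 : x = 0 ∨ x = 1 := by
        have h2 : x.1 = 0 ∨ x.1 = 1 := by omega
        rcases h2 with h2 | h2
        · exact Or.inl (Fin.ext h2)
        · exact Or.inr (Fin.ext h2)
      simp only [pt, msk, notMem_empty, if_false, posn_inl, hβ, fac]
      by_cases hj : j = dir (.pr i ∅)
      · have hj' := hd.1 hj
        have e1 : ∀ y, cell (dir (.pr i ∅)) r (s y) j = r := by
          intro y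
          unfold cell
          rw [if_pos hj]
        simp only [e1, if_pos hj', if_pos hj]
        rcases hx01 with rfl | rfl
        · simp
        · split_ifs <;> simp_all
      · have hj' : ¬ j.1 = i := fun h => hj (hd.2 h)
        rcases hx01 with rfl | rfl
        · simp
        · rw [if_neg (by decide), if_neg hj', if_neg hj, one_mul]
    · omega
  · simp only [npt] at hx
    split_ifs at hx with h
    · obtain ⟨hi, rfl⟩ := h
      have hd : j = dir (.tr i ∅) ↔ j.1 = i := by
        simp only [dir]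
        have := j.2
        split_ifs with h0
        · rw [Fin.ext_iff]
          show j.1 = 0 ↔ _
          omega
        · rw [Fin.ext_iff]
          show j.1 = 1 ↔ _
          omega
      simp only [pt, msk, notMem_empty, if_false, posn_inl, hβ, fac]
      by_cases hj : j = dir (.tr i ∅)
      · have hj' := hd.1 hj
        have e1 : ∀ y, cell (dir (.tr i ∅)) r (s y) j = r := by
          intro y
          unfold cell
          rw [if_pos hj]
        simp only [e1, if_pos hj', if_pos hj]
        split_ifs <;> norm_num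
      · have hj' : ¬ j.1 = i := fun h => hj (hd.2 h)
        simp only [if_neg hj', if_neg hj, one_mul]
        split_ifs with h1 h2 h2
        all_goals first
          | rfl
          | (subst h1; simp_all)
    · omega

/-- The functional of a point at the position `posn`. -/
theorem sum_tp {φ : (Fin 2 × Fin c) ⊕ Fin m ≃ ν} {β : ν → ℕ} (hφ : IsB φ β) (k : Kd)
    (x : Fin 3) (hx : x.1 < npt k) (r : Fin c) (s : Fin 3 → Fin c) (g : (Fin 2 → Fin c) → ℂ) :
    ∑ a, tp φ (pt β k x (posn φ (dir k) r s)) a * g a =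
      fac k x * g (cell (dir k) r (s x)) := by
  classical
  have h1 : ∀ a : Fin 2 → Fin c, tp φ (pt β k x (posn φ (dir k) r s)) a =
      if a = cell (dir k) r (s x) then fac k x else 0 := by
    intro a
    unfold tp
    rw [pt_posn hφ k x hx, pt_posn hφ k x hx]
    have h2 : a = cell (dir k) r (s x) ↔
        a 0 = cell (dir k) r (s x) 0 ∧ a 1 = cell (dir k) r (s x) 1 := by
      constructor
      · intro h
        rw [h]
        exact ⟨rfl, rfl⟩
      · rintro ⟨h, h'⟩
        funext j
        fin_cases j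
        · exact h
        · exact h'
    have h3 : dir k = 0 ∨ dir k = 1 := by
      have := (dir k).2
      have h4 : (dir k).1 = 0 ∨ (dir k).1 = 1 := by omega
      rcases h4 with h4 | h4
      · exact Or.inl (Fin.ext h4)
      · exact Or.inr (Fin.ext h4)
    rw [if_congr h2 rfl rfl]
    clear h2
    generalize cell (dir k) r (s x) 0 = u
    generalize cell (dir k) r (s x) 1 = v
    by_cases e0 : a 0 = u <;> by_cases e1 : a 1 = v <;> rcases h3 with h3 | h3 <;>
      simp [e0, e1, h3]
  simp only [h1, ite_mul, zero_mul]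
  rw [sum_ite_eq' univ, if_pos (mem_univ _)]

/-- A line with three free cells. -/
theorem exists_line (hc : 3 ≤ c) (U : Finset (Fin 2 → Fin c)) (hU : 5 * U.card ≤ c ^ 2)
    (i : Fin 2) : ∃ (r : Fin c) (s : Fin 3 → Fin c), Function.Injective s ∧
      ∀ x, cell i r (s x) ∉ U := by
  classical
  by_contra hcon
  push Not at hcon
  have h1 : ∀ r : Fin c, (univ.filter fun s : Fin c => cell i r s ∉ U).card ≤ 2 := by
    intro r
    by_contra h
    push Not at h
    obtain ⟨F, hF, hF3⟩ := exists_subset_card_eq (s := univ.filter fun s : Fin c => cell i r s ∉ U)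
      (n := 3) (by omega)
    let e := F.equivFinOfCardEq hF3
    obtain ⟨x, hx⟩ := hcon r (fun x => (e.symm x).1) (fun x y h =>
      e.symm.injective (Subtype.ext h))
    exact (mem_filter.1 (hF (e.symm x).2)).2 hx
  have h2 : ∀ r : Fin c, c - 2 ≤ (univ.filter fun s : Fin c => cell i r s ∈ U).card := by
    intro r
    have h3 := h1 r
    have h4 := card_filter_add_card_filter_not (s := (univ : Finset (Fin c)))
      (fun s : Fin c => cell i r s ∈ U)
    rw [card_univ, Fintype.card_fin] at h4
    omega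
  have h5 : ∑ r : Fin c, (univ.filter fun s : Fin c => cell i r s ∈ U).card ≤ U.card := by
    rw [← card_sigma]
    refine card_le_card_of_injOn (fun x => cell i x.1 x.2) ?_ ?_
    · rintro ⟨r, s⟩ h
      rw [mem_coe, mem_sigma, mem_filter] at h
      exact h.2.2
    · rintro ⟨r, s⟩ _ ⟨r', s'⟩ _ h
      have h6 : ∀ j, cell i r s j = cell i r' s' j := fun j => congrFun h j
      have h7 := h6 i
      simp only [cell, if_true] at h7
      have h8 := h6 (1 - i)
      have h9 : (1 : Fin 2) - i ≠ i := by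
        fin_cases i <;> decide
      simp only [cell, if_neg h9] at h8
      subst h7
      subst h8
      rfl
  have h6 : c * (c - 2) ≤ U.card := by
    refine le_trans ?_ h5
    calc c * (c - 2) = ∑ _r : Fin c, (c - 2) := by
          rw [sum_const, card_univ, Fintype.card_fin, smul_eq_mul]
      _ ≤ _ := sum_le_sum fun r _ => h2 r
  obtain ⟨d, rfl⟩ := Nat.exists_eq_add_of_le hc
  have h7 : 3 + d - 2 = d + 1 := by omega
  rw [h7] at h6
  nlinarith

theorem exists_pos {φ : (Fin 2 × Fin c) ⊕ Fin m ≃ ν} {β : ν → ℕ} (hφ : IsB φ β) (hc : 3 ≤ c)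
    {κ : Type} [Fintype κ] (rest : κ → Kd) (hT : 5 * ∑ i, npt (rest i) ≤ c ^ 2) :
    ∃ p : κ → ν × Fin 3 → ℂ, ∃ U : Finset (Fin 2 → Fin c), U.card = ∑ i, npt (rest i) ∧
      ∀ g ∈ (cvS φ β).V rest p, ∀ u ∈ U, g u = 0 := by
  classical
  have h1 : ∀ S : Finset κ, ∃ p : κ → ν × Fin 3 → ℂ, ∃ U : Finset (Fin 2 → Fin c),
      U.card = ∑ i ∈ S, npt (rest i) ∧ ∀ g : (Fin 2 → Fin c) → ℂ,
        (∀ i ∈ S, ∀ x : Fin 3, x.1 < npt (rest i) →
          ∑ a, tp φ (pt β (rest i) x (p i)) a * g a = 0) → ∀ u ∈ U, g u = 0 := by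
    intro S
    induction S using Finset.induction_on with
    | empty => exact ⟨0, ∅, by simp, fun g _ u hu => absurd hu (notMem_empty u)⟩
    | insert i S hi ih =>
      obtain ⟨p, U, hU, hg⟩ := ih
      have h2 : ∑ i ∈ S, npt (rest i) ≤ ∑ i, npt (rest i) :=
        sum_le_sum_of_subset (subset_univ S)
      obtain ⟨r, s, hs, hs'⟩ := exists_line hc U (by rw [hU]; omega) (dir (rest i))
      let N : Finset (Fin 3) := univ.filter fun x => x.1 < npt (rest i)
      have hN : N.card = npt (rest i) := by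
        have h3 : npt (rest i) ≤ 3 := by
          rcases rest i with ⟨μ, I⟩ | ⟨i, I⟩ | ⟨i, I⟩ <;> simp only [npt] <;> split_ifs <;> omega
        have h4 : ∀ n, n ≤ 3 → (univ.filter fun x : Fin 3 => x.1 < n).card = n := by
          decide
        exact h4 _ h3
      have hinj : Function.Injective fun x : Fin 3 => cell (dir (rest i)) r (s x) := by
        intro x y h
        apply hs
        have h3 := congrFun h (1 - dir (rest i))
        have h9 : ∀ j : Fin 2, (1 : Fin 2) - j ≠ j := by
          decide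
        simp only [cell, if_neg (h9 _)] at h3
        exact h3
      refine ⟨Function.update p i (posn φ (dir (rest i)) r s),
        U ∪ N.image fun x => cell (dir (rest i)) r (s x), ?_, ?_⟩
      · rw [card_union_of_disjoint, card_image_of_injective _ hinj, hN, hU, sum_insert hi, add_comm]
        rw [disjoint_left]
        intro u hu hu'
        obtain ⟨x, _, rfl⟩ := mem_image.1 hu'
        exact hs' x hu
      · intro g hg' u hu
        rcases mem_union.1 hu with hu | hu
        · refine hg g (fun j hj x hx => ?_) u hu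
          have h3 := hg' j (mem_insert_of_mem hj) x hx
          have hne : j ≠ i := by
            rintro rfl
            exact hi hj
          rwa [Function.update_of_ne hne] at h3
        · obtain ⟨x, hx, rfl⟩ := mem_image.1 hu
          have h3 := hg' i (mem_insert_self i S) x (mem_filter.1 hx).2
          rw [Function.update_self, sum_tp hφ _ _ (mem_filter.1 hx).2] at h3
          exact (mul_eq_zero.1 h3).resolve_left (fac_ne _ _)
  obtain ⟨p, U, hU, hg⟩ := h1 univ
  refine ⟨p, U, hU, fun g hg' u hu => hg g (fun i _ x hx => ?_) u hu⟩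
  exact (mem_cvS φ β rest p g).1 hg' i x hx

/-- The general dimension. -/
theorem gn_cvS {φ : (Fin 2 × Fin c) ⊕ Fin m ≃ ν} {β : ν → ℕ} (hφ : IsB φ β) (hc : 3 ≤ c)
    {κ : Type} [Fintype κ] (rest : κ → Kd) (hT : 5 * ∑ i, npt (rest i) ≤ c ^ 2) :
    Gn κ (ν × Fin 3) fun p =>
      finrank ℂ ((cvS φ β).V rest p) + ∑ i, npt (rest i) = c ^ 2 := by
  classical
  obtain ⟨p₀, U, hU, h0⟩ := exists_pos hφ hc rest hT
  have hE : Fintype.card (Fin 2 → Fin c) = c ^ 2 := by
    rw [Fintype.card_fun, Fintype.card_fin, Fintype.card_fin]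
  have h1 : finrank ℂ ((cvS φ β).V rest p₀) + U.card ≤ c ^ 2 := by
    let L : ((Fin 2 → Fin c) → ℂ) →ₗ[ℂ] ({u // u ∈ U} → ℂ) := LinearMap.funLeft ℂ ℂ Subtype.val
    have h2 : (cvS φ β).V rest p₀ ≤ LinearMap.ker L := by
      intro g hg
      rw [LinearMap.mem_ker]
      funext u
      exact h0 g hg u.1 u.2
    have h3 := Submodule.finrank_mono h2
    have h4 := LinearMap.finrank_range_add_finrank_ker L
    have h5 : LinearMap.range L = ⊤ := by
      rw [LinearMap.range_eq_top]
      exact LinearMap.funLeft_surjective_of_injective ℂ ℂ _ Subtype.val_injective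
    rw [h5, finrank_top, finrank_fintype_fun_eq_card, finrank_fintype_fun_eq_card, hE,
      Fintype.card_coe] at h4
    omega
  refine (gn_gd (cvS φ β) rest).mono fun p hp => ?_
  have h2 := gd_le (cvS φ β) rest p₀
  have h3 : c ^ 2 ≤ finrank ℂ ((cvS φ β).V rest p) + ∑ i, npt (rest i) := by
    let L : ((Fin 2 → Fin c) → ℂ) →ₗ[ℂ] ((Σ i : κ, Fin (npt (rest i))) → ℂ) :=
      LinearMap.pi fun y => ∑ a, tp φ (pt β (rest y.1) (Fin.ofNat 3 y.2.1) (p y.1)) a •
        LinearMap.proj a
    have h4 : LinearMap.ker L ≤ (cvS φ β).V rest p := by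
      intro g hg
      rw [mem_cvS]
      intro i x hx
      have h5 := congrFun (LinearMap.mem_ker.1 hg) ⟨i, ⟨x.1, hx⟩⟩
      have h6 : Fin.ofNat 3 x.1 = x := by
        apply Fin.ext
        show x.1 % 3 = x.1
        exact Nat.mod_eq_of_lt x.2
      simp only [L, LinearMap.pi_apply, LinearMap.sum_apply, LinearMap.smul_apply,
        LinearMap.proj_apply, smul_eq_mul, Pi.zero_apply, h6] at h5
      exact h5
    have h5 := Submodule.finrank_mono h4
    have h6 := LinearMap.finrank_range_add_finrank_ker L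
    have h7 := Submodule.finrank_le (LinearMap.range L)
    rw [finrank_fintype_fun_eq_card, Fintype.card_sigma] at h7
    simp only [Fintype.card_fin] at h7
    rw [finrank_fintype_fun_eq_card, hE] at h6
    omega
  omega

/-- The conditions of a point are the vanishing of the functional on the coefficient vectors. -/
theorem tcr_eq {φ : (Fin 2 × Fin c) ⊕ Fin m ≃ ν} {β : ν → ℕ} (hφ : IsB φ β) (q : ν → ℂ)
    (α : Fin m →₀ ℕ) (hα : ∑ t, α t = 2) (e : {e // e ∈ Ex β 4 2}) :
    tcr q e.1 (fun s => Sum.elim (fun _ => 0) (fun t => α t) (φ.symm s)) =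
      ∑ a : Fin 2 → Fin c, if HasX φ a e.1 ∧ zp φ e.1 = α then tp φ q a else 0 := by
  classical
  have hsum := (mem_Ex.1 e.2).1
  rw [sum_split φ] at hsum
  have hX : 2 ≤ ∑ x, e.1 (φ (Sum.inl x)) := by
    have h1 : ∀ i : Fin 2, 1 ≤ ∑ r, e.1 (φ (Sum.inl (i, r))) := by
      intro i
      obtain ⟨s, hs, hs'⟩ := (mem_Ex.1 e.2).2 i.1 i.2
      obtain ⟨x, rfl⟩ := φ.surjective s
      rcases x with ⟨i', r⟩ | t
      · have h2 := hφ.1 (i', r)
        rw [hs] at h2
        have h3 : i = i' := Fin.ext h2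
        subst h3
        refine le_trans (Nat.one_le_iff_ne_zero.2 hs') ?_
        exact single_le_sum (f := fun r => e.1 (φ (Sum.inl (i, r)))) (fun _ _ => Nat.zero_le _)
          (mem_univ r)
      · have h2 := hφ.2 t
        have := i.2
        omega
    rw [Fintype.sum_prod_type, Fin.sum_univ_two]
    have := h1 0
    have := h1 1
    omega
  by_cases hz : zp φ e.1 = α
  · have hz' : ∀ t, e.1 (φ (Sum.inr t)) = α t := fun t => by rw [← hz, zp_apply]
    have h2 : ∑ x, e.1 (φ (Sum.inl x)) = 2 := by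
      simp only [hz', hα] at hsum
      omega
    obtain ⟨a, ha⟩ := exists_HasX hφ e.2 h2.le
    rw [sum_eq_single a]
    · rw [if_pos ⟨ha, hz⟩]
      unfold tcr
      rw [← φ.prod_comp, Fintype.prod_sum_type]
      have h3 : ∏ t : Fin m, ((e.1 (φ (Sum.inr t))).choose ((fun s => Sum.elim (fun _ => 0)
          (fun t => α t) (φ.symm s)) (φ (Sum.inr t))) : ℂ) * q (φ (Sum.inr t)) ^
          (e.1 (φ (Sum.inr t)) - (fun s => Sum.elim (fun _ => 0) (fun t => α t) (φ.symm s))
            (φ (Sum.inr t))) = 1 := by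
        refine prod_eq_one fun t _ => ?_
        simp [hz']
      rw [h3, mul_one, Fintype.prod_prod_type, Fin.prod_univ_two]
      unfold tp
      have h4 : ∀ i : Fin 2, ∏ r : Fin c, ((e.1 (φ (Sum.inl (i, r)))).choose ((fun s =>
          Sum.elim (fun _ => 0) (fun t => α t) (φ.symm s)) (φ (Sum.inl (i, r)))) : ℂ) *
          q (φ (Sum.inl (i, r))) ^ (e.1 (φ (Sum.inl (i, r))) - (fun s => Sum.elim (fun _ => 0)
            (fun t => α t) (φ.symm s)) (φ (Sum.inl (i, r)))) = q (φ (Sum.inl (i, a i))) := by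
        intro i
        rw [prod_eq_single (a i)]
        · have h5 := ha (i, a i)
          simp only [if_true] at h5
          simp [h5]
        · intro r _ hr
          have h5 := ha (i, r)
          simp only [if_neg hr] at h5
          simp [h5]
        · intro h
          exact absurd (mem_univ _) h
      rw [h4, h4]
    · intro a' _ hne
      rw [if_neg]
      rintro ⟨h3, _⟩
      apply hne
      funext i
      have h4 := ha (i, a' i)
      have h5 := h3 (i, a' i)
      simp only [if_true] at h5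
      rw [h5] at h4
      by_contra h6
      simp only [if_neg h6] at h4
      omega
    · intro h
      exact absurd (mem_univ a) h
  · rw [sum_eq_zero fun a _ => if_neg fun h => hz h.2]
    have h1 : ∃ t, e.1 (φ (Sum.inr t)) < α t := by
      by_contra hcon
      push Not at hcon
      apply hz
      have h2 : ∑ t, α t = ∑ t, e.1 (φ (Sum.inr t)) := by
        have := sum_le_sum fun t (_ : t ∈ (univ : Finset (Fin m))) => hcon t
        omega
      ext t
      rw [zp_apply]
      exact ((sum_eq_sum_iff_of_le fun t _ => hcon t).1 h2 t (mem_univ t)).symm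
    obtain ⟨t, ht⟩ := h1
    unfold tcr
    refine prod_eq_zero (mem_univ (φ (Sum.inr t))) ?_
    have h2 : (fun s => Sum.elim (fun _ => 0) (fun t => α t) (φ.symm s) : ν → ℕ)
        (φ (Sum.inr t)) = α t := by simp
    rw [h2, Nat.choose_eq_zero_of_lt ht, Nat.cast_zero, zero_mul]

theorem coeff_Gam' (φ : (Fin 2 × Fin c) ⊕ Fin m ≃ ν) {β : ν → ℕ}
    (f : {e // e ∈ Ex β 4 2} → ℂ) (a : Fin 2 → Fin c) (α : Fin m →₀ ℕ) :
    coeff α (Gam φ f a) = ∑ e : {e // e ∈ Ex β 4 2},
      if HasX φ a e.1 ∧ zp φ e.1 = α then f e else 0 := by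
  classical
  rw [Gam_apply, coeff_sum]
  refine sum_congr rfl fun e _ => ?_
  by_cases h : HasX φ a e.1
  · rw [if_pos h, coeff_monomial]
    by_cases h' : zp φ e.1 = α
    · rw [if_pos h', if_pos ⟨h, h'⟩]
    · rw [if_neg h', if_neg fun h'' => h' h''.2]
  · rw [if_neg h, if_neg fun h'' => h h''.1, coeff_zero]

theorem mem_B {φ : (Fin 2 × Fin c) ⊕ Fin m ≃ ν} {β : ν → ℕ} (hφ : IsB φ β) {κ : Type}
    (rest : κ → Kd) (p : κ → ν × Fin 3 → ℂ) (f : {e // e ∈ Ex β 4 2} → ℂ)
    (hf : f ∈ (LS β 2).V rest p) (α : Fin m →₀ ℕ) :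
    (fun a => coeff α (Gam φ f a)) ∈ (cvS φ β).V rest p := by
  classical
  rw [mem_cvS]
  intro i x hx
  simp only [coeff_Gam']
  by_cases hα : ∑ t, α t = 2
  · rw [mem_LSA] at hf
    have h1 := hf i x
    have hmu : mu (rest i) x = 3 := by
      rcases hk : rest i with ⟨μ, I⟩ | ⟨j, I⟩ | ⟨j, I⟩
      · rw [hk] at hx
        simp only [npt] at hx
        split_ifs at hx with h
        · have hx0 : x = 0 := by
            apply Fin.ext
            show x.1 = 0
            omega
          simp only [mu, if_pos hx0]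
          exact h.1
        · omega
      · rw [hk] at hx
        simp only [npt] at hx
        split_ifs at hx with h
        · simp only [mu]
          rw [if_neg]
          rintro rfl
          revert hx
          decide
        · omega
      · rfl
    rw [hmu] at h1
    have hb : ∑ s, (fun s => Sum.elim (fun _ => 0) (fun t => α t) (φ.symm s) : ν → ℕ) s < 3 := by
      rw [sum_split φ]
      simp [hα]
    have h2 := h1 _ hb
    have h3 : ∀ e : {e // e ∈ Ex β 4 2}, f e * tcr (pt β (rest i) x (p i)) e.1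
        (fun s => Sum.elim (fun _ => 0) (fun t => α t) (φ.symm s)) =
        ∑ a : Fin 2 → Fin c, tp φ (pt β (rest i) x (p i)) a *
          if HasX φ a e.1 ∧ zp φ e.1 = α then f e else 0 := by
      intro e
      rw [tcr_eq hφ _ α hα e, mul_sum]
      refine sum_congr rfl fun a _ => ?_
      split_ifs
      · ring
      · ring
    simp only [h3] at h2
    rw [sum_comm] at h2
    refine Eq.trans ?_ h2
    exact sum_congr rfl fun a _ => mul_sum _ _ _
  · refine sum_eq_zero fun a _ => ?_
    rw [sum_eq_zero, mul_zero]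
    intro e _
    rw [if_neg]
    rintro ⟨h1, h2⟩
    apply hα
    have h3 := (mem_Ex.1 e.2).1
    rw [sum_split φ, h1.sum] at h3
    have h4 : ∀ t, e.1 (φ (Sum.inr t)) = α t := fun t => by rw [← h2, zp_apply]
    simp only [h4] at h3
    omega

end

/-- **CV2.** -/
theorem cv2 (c : ℕ) (hc : 3 ≤ c) : CV2 c := by
  refine ⟨0, fun n _ m φ hφ k hk a ha κ _ rest hrest => ?_⟩
  have h1 := sum_npt rest a hrest
  have hT : 5 * ∑ i, npt (rest i) ≤ c ^ 2 := by
    rw [h1, ← ha]
    rcases hk with rfl | rfl <;> omega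
  refine (gn_cvS hφ hc rest hT).mono fun p hp => ⟨(cvS φ (blk c n)).V rest p, ?_, ?_⟩
  · rw [← h1]
    exact hp
  · intro f hf α
    exact mem_B hφ rest p f hf α

end Pool.Agent.KZ
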