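import Pool.Agent.KZ.Top.Gamma
import Pool.Agent.V7.GA.Main

/-!
# KZ4, TOP: GAMMA2, the main theorem
-/

set_option autoImplicit false
set_option linter.unusedSectionVars false

namespace Pool.Agent.KZ

open Finset MvPolynomial Pool.Agent.H51.TB Pool.Agent.H54.V7 Pool.Agent.V7.ST
open Pool.Agent.V7 (msk Ex blk mem_Ex)
open Pool.Agent.H18.Ex (tcr)

section

variable {ν : Type} [Fintype ν] [DecidableEq ν]

/-- The exponents on `ν × Fin 3`. -/
noncomputable def lft (a : ν → ℕ) : ν × Fin 3 →₀ ℕ :=
  Finsupp.equivFunOnFinite.symm fun x => if x.2 = 0 then a x.1 else 0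

theorem lft_inj {a b : ν → ℕ} (h : lft a = lft b) : a = b := by
  funext s
  have h1 := DFunLike.congr_fun h (s, 0)
  simpa [lft] using h1

theorem eval_lft (a : ν → ℕ) (p : ν × Fin 3 → ℂ) :
    eval p (monomial (lft a) (1 : ℂ)) = ∏ s, p (s, 0) ^ a s := by
  rw [eval_monomial, one_mul, Finsupp.prod_fintype _ _ fun x => pow_zero _,
    Fintype.prod_prod_type]
  refine prod_congr rfl fun s _ => ?_
  rw [Fin.prod_univ_three]
  simp [lft]

/-- General points of the type `ord 3 {i}` span. -/
theorem spn_gn (β : ν → ℕ) {i i' : ℕ} (hi : Two i i') {κ : Type} [Fintype κ]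
    (hκ : (E2 β i').card ≤ Fintype.card κ) :
    Gn κ (ν × Fin 3) fun p => Spn β i' fun j => msk β {i} fun s => p j (s, 0) := by
  have h1 := span_gn (fun a : {a // a ∈ E2 β i'} => (monomial (lft a.1) (1 : ℂ))) ?_ (κ := κ)
    (by rwa [Fintype.card_coe])
  · refine h1.mono fun p hp g hg => hp g fun j => ?_
    rw [← hg j]
    refine sum_congr rfl fun a _ => ?_
    rw [eval_lft]
    congr 1
    refine prod_congr rfl fun s _ => ?_
    by_cases h2 : a.1 s = 0
    · rw [h2, pow_zero, pow_zero]
    · have h3 := (mem_E2.1 a.2).2 s h2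
      have h4 : msk β {i} (fun s => p j (s, 0)) s = p j (s, 0) := by
        unfold msk
        rw [if_neg]
        rw [mem_singleton, h3]
        exact hi.ne.symm
      exact congrArg (· ^ a.1 s) h4.symm
  · intro g hg
    funext a
    have h2 := congrArg (coeff (lft a.1)) hg
    rw [coeff_sum, coeff_zero, sum_eq_single a] at h2
    · rw [coeff_C_mul, coeff_monomial, if_pos rfl, mul_one] at h2
      exact h2
    · intro b _ hb
      rw [coeff_C_mul, coeff_monomial, if_neg, mul_zero]
      intro h3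
      exact hb (Subtype.ext (lft_inj h3))
    · intro h
      exact absurd (mem_univ a) h

/-- The number of the exponents of degree `2` on a block. -/
theorem card_E2_le (β : ν → ℕ) (i : ℕ) :
    (E2 β i).card ≤ (univ.filter fun s => β s = i).card ^ 2 := by
  have h1 : E2 β i ⊆ ((univ.filter fun s => β s = i) ×ˢ (univ.filter fun s => β s = i)).image
      fun x => Pi.single x.1 1 + Pi.single x.2 1 := by
    intro a ha
    rw [mem_E2] at ha
    have h2 : ∀ b : ν → ℕ, 1 ≤ ∑ s, b s → ∃ s, b s ≠ 0 := by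
      intro b hb
      by_contra hc
      push Not at hc
      have h5 : ∑ s, b s = 0 := sum_eq_zero fun s _ => hc s
      omega
    obtain ⟨s, hs⟩ := h2 a (by omega)
    let b : ν → ℕ := fun t => a t - if t = s then 1 else 0
    have hb : ∀ t, b t + (if t = s then 1 else 0) = a t := by
      intro t
      show a t - (if t = s then 1 else 0) + (if t = s then 1 else 0) = a t
      split_ifs with h
      · rw [h]
        omega
      · omega
    have hbs : ∑ t, b t = 1 := by
      have h3 : ∑ t, (b t + if t = s then 1 else 0) = 2 := by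
        rw [← ha.1]
        exact sum_congr rfl fun t _ => hb t
      rw [sum_add_distrib, sum_ite_eq' univ s fun _ => 1, if_pos (mem_univ s)] at h3
      omega
    obtain ⟨t, ht⟩ := h2 b (by omega)
    have hb' : ∀ u, b u = if u = t then 1 else 0 := by
      have h3 : ∑ u, (if u = t then 1 else 0) = ∑ u, b u := by
        rw [sum_ite_eq' univ t fun _ => 1, if_pos (mem_univ t), hbs]
      have h4 : ∀ u ∈ (univ : Finset ν), (if u = t then 1 else 0) ≤ b u := by
        intro u _
        split_ifs with h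
        · rw [h]
          omega
        · exact Nat.zero_le _
      intro u
      exact ((sum_eq_sum_iff_of_le h4).1 h3 u (mem_univ u)).symm
    rw [mem_image]
    refine ⟨(s, t), ?_, ?_⟩
    · rw [mem_product, mem_filter, mem_filter]
      refine ⟨⟨mem_univ s, ha.2 s hs⟩, mem_univ t, ha.2 t ?_⟩
      have := hb t
      omega
    · funext u
      show (Pi.single s 1 : ν → ℕ) u + (Pi.single t 1 : ν → ℕ) u = a u
      rw [← hb u, hb' u, Pi.single_apply, Pi.single_apply]
      ring
  refine (card_le_card h1).trans (card_image_le.trans ?_)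
  rw [card_product, sq]

end

/-- **GAMMA2.** -/
theorem gamma2 (c : ℕ) (hc : 40 ≤ c) : GAMMA2 c := by
  classical
  refine ⟨1, one_pos, 2 * c ^ 2, fun n hn m φ hφ k hk a ha _ κ _ rest hrest => ?_⟩
  have hcard : ∀ i, (E2 (blk c n) i).card ≤ c ^ 2 := fun i =>
    (card_E2_le _ i).trans (Nat.pow_le_pow_left (Pool.Agent.V7.GA.card_blk_le (by omega) n i) 2)
  have hcount : ∀ τ, Fintype.card {j // rest j = τ} = a.ms.count τ := by
    intro τ
    rw [← hrest, Multiset.count_map, Fintype.card_subtype, ← Finset.filter_val, Finset.card_val]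
    exact congrArg Finset.card (Finset.filter_congr fun a _ => eq_comm)
  have hxx : (0.18 : ℝ) < xx := by
    unfold xx
    have h1 : Real.sqrt (2 / 3) < 0.82 := by
      rw [Real.sqrt_lt' (by norm_num)]
      norm_num
    linarith
  have hc' : (40 : ℝ) ≤ c := by exact_mod_cast hc
  have hn' : (2 : ℝ) * (c : ℝ) ^ 2 ≤ n := by exact_mod_cast hn
  have hn0 : (0 : ℝ) ≤ n := Nat.cast_nonneg n
  have hcn : (40 : ℝ) * n ≤ c * n := mul_le_mul_of_nonneg_right hc' hn0
  have hcn0 : (0 : ℝ) ≤ c * n := by positivity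
  have hu : c ^ 2 ≤ a.u := by
    have h1 := (abs_le.1 ha.U).1
    have h2 : (a.U : ℝ) = a.u + 2 * a.pu := by
      unfold L2.U
      push_cast
      ring
    have h3 : (100 : ℝ) * a.pu ≤ 83 * n := by exact_mod_cast ha.pu
    have h4 : (1 : ℝ) / k ≤ 0.2 := by
      rcases hk with rfl | rfl <;> norm_num
    have h5 : (0.17 : ℝ) * (c * n) ≤ (3 * xx - 1 / k) / 2 * c * n := by
      have h6 : (0.17 : ℝ) ≤ (3 * xx - 1 / k) / 2 := by linarith
      calc (0.17 : ℝ) * (c * n) ≤ (3 * xx - 1 / k) / 2 * (c * n) :=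
            mul_le_mul_of_nonneg_right h6 hcn0
        _ = (3 * xx - 1 / k) / 2 * c * n := by ring
    have h6 : ((c ^ 2 : ℕ) : ℝ) ≤ (a.u : ℝ) := by
      push_cast
      linarith
    exact_mod_cast h6
  have hy : c ^ 2 ≤ a.y := by
    have h1 := (abs_le.1 ha.Y).1
    have h2 : (a.Y : ℝ) = a.y + 2 * a.py + 3 * a.qy := by
      unfold L2.Y
      push_cast
      ring
    have h3 : (50 : ℝ) * a.py ≤ 21 * n := by exact_mod_cast ha.py
    have h4 : (10 : ℝ) * a.qy ≤ 11 * n := by exact_mod_cast ha.qy
    have h5 : (0.18 : ℝ) * (c * n) ≤ xx * c * n := by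
      calc (0.18 : ℝ) * (c * n) ≤ xx * (c * n) := mul_le_mul_of_nonneg_right hxx.le hcn0
        _ = xx * c * n := by ring
    have h6 : ((c ^ 2 : ℕ) : ℝ) ≤ (a.y : ℝ) := by
      push_cast
      linarith
    exact_mod_cast h6
  have hu' : c ^ 2 ≤ a.ms.count (Kd.ord 3 {0}) := by
    refine hu.trans ?_
    unfold L2.ms
    simp only [Multiset.count_add, Multiset.count_replicate]
    simp
  have hy' : c ^ 2 ≤ a.ms.count (Kd.ord 3 {1}) := by
    refine hy.trans ?_
    unfold L2.ms
    simp only [Multiset.count_add, Multiset.count_replicate]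
    simp
  have g1 : Gn κ (Fin n × Fin 3) fun p => Spn (blk c n) 1
      fun j : {j // rest j = Kd.ord 3 {0}} => msk (blk c n) {0} fun s => p j.1 (s, 0) :=
    (spn_gn (blk c n) (i := 0) (i' := 1) (Or.inl ⟨rfl, rfl⟩)
      (κ := {j // rest j = Kd.ord 3 {0}}) (by rw [hcount]; exact (hcard 1).trans hu')).comap
      Subtype.val Subtype.val_injective
  have g2 : Gn κ (Fin n × Fin 3) fun p => Spn (blk c n) 0
      fun j : {j // rest j = Kd.ord 3 {1}} => msk (blk c n) {1} fun s => p j.1 (s, 0) :=
    (spn_gn (blk c n) (i := 1) (i' := 0) (Or.inr ⟨rfl, rfl⟩)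
      (κ := {j // rest j = Kd.ord 3 {1}}) (by rw [hcount]; exact (hcard 0).trans hy')).comap
      Subtype.val Subtype.val_injective
  refine (g1.and g2).mono fun p hp f hf hG => ?_
  rw [mem_LSA] at hf
  refine kill_all ?_ hp.1 ?_ ?_ hp.2 ?_ ?_
  · intro j s hs
    unfold msk
    rw [if_pos (by rw [mem_singleton, hs])]
  · intro j
    have h1 := hf j.1 0
    rw [j.2] at h1
    exact h1
  · intro j s hs
    unfold msk
    rw [if_pos (by rw [mem_singleton, hs])]
  · intro j
    have h1 := hf j.1 0
    rw [j.2] at h1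
    exact h1
  · intro e he
    refine Pool.Agent.V7.Top.Gam_zero hφ f hG e ?_
    rw [Dg_low]
    exact he

end Pool.Agent.KZ
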