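import Pool.Agent.KZ.Top.Prop2
import Pool.Agent.KZ.Top.GammaM
import Pool.Agent.KZ.Top.CV

/-!
# KZ4: exactness on the level `2` from ALPHA2 and BETA
-/

set_option autoImplicit false

namespace Pool.Agent.KZ

theorem prop2_of (c : ℕ) (hc : 240 ≤ c) (hA : ALPHA2 c) (hB : BETA c) : PROP2 c :=
  prop2_core c (by omega) hA hB (gamma2 c (by omega)) (cv2 c (by omega))

end Pool.Agent.KZ
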