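import Pool.Agent.KZ.Top.Stmt
import Pool.Agent.V7.GA.Basic

/-!
# KZ4, TOP: GAMMA2

A form of the level `2` whose part of degree `1`, `1`, `2` vanishes is zero, if there are at least
`s_2(c)` general triple points on `L_0` and on `L_1`.
-/

set_option autoImplicit false
set_option linter.unusedSectionVars false

namespace Pool.Agent.KZ

open Finset MvPolynomial Pool.Agent.H51.TB Pool.Agent.H54.V7 Pool.Agent.V7.ST
open Pool.Agent.V7 (msk Ex blk mem_Ex)
open Pool.Agent.H18.Ex (tcr)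

/-! ### Independent polynomials at general points -/

/-- The system of the values of the polynomials `co e`. -/
noncomputable def spS {E ν : Type} (co : E → MvPolynomial ν ℂ) : Sys E ν Unit where
  R := fun _ => Unit
  fin := fun _ => inferInstance
  co := fun _ _ e => co e

theorem span_gn {E ν : Type} [Fintype E] (co : E → MvPolynomial ν ℂ)
    (hli : ∀ g : E → ℂ, ∑ e, C (g e) * co e = 0 → g = 0) {κ : Type} [Fintype κ]
    (hκ : Fintype.card E ≤ Fintype.card κ) :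
    Gn κ ν fun p => ∀ g : E → ℂ, (∀ i, ∑ e, eval (p i) (co e) * g e = 0) → g = 0 := by
  classical
  have h1 : gM (spS co) (0 + Multiset.replicate (Fintype.card κ) ()) = 0 := by
    refine Pool.Agent.V7.GA.gM_kill (spS co) Set.univ ?_ (Fintype.card κ) 0 _ ?_ ?_
    · intro F hF
      refine ⟨(), Set.mem_univ _, ?_⟩
      have h2 : ∑ e, C (F e) * co e ≠ 0 := fun h => hF (hli F h)
      have h3 : ∃ q : ν → ℂ, eval q (∑ e, C (F e) * co e) ≠ 0 := by
        by_contra hc
        push Not at hc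
        exact h2 (MvPolynomial.funext fun q => by rw [hc q, map_zero])
      obtain ⟨q, hq⟩ := h3
      refine ⟨q, fun h => hq ?_⟩
      rw [map_sum, ← (Sys.mem_V _ _ _ _).1 h () ()]
      refine sum_congr rfl fun e _ => ?_
      rw [map_mul, eval_C, mul_comm]
      rfl
    · rw [gM_zero]
      exact hκ
    · intro t _
      rw [Multiset.count_replicate_self]
  have h2 : (spS co).gd (fun _ : κ => ()) = 0 := by
    rw [gd_eq_gM, Pool.Agent.V7.ST.map_const, ← h1, zero_add]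
  refine (gn_gd (spS co) (fun _ : κ => ())).mono fun p hp g hg => ?_
  rw [h2] at hp
  have h3 : (spS co).V (fun _ : κ => ()) p = ⊥ := Submodule.finrank_eq_zero.1 hp
  have h4 : g ∈ (spS co).V (fun _ : κ => ()) p := fun i _ => hg i
  rw [h3, Submodule.mem_bot] at h4
  exact h4

section

variable {ν : Type} [Fintype ν] [DecidableEq ν]

/-- The exponents of degree `2` on the block `i`. -/
def E2 (β : ν → ℕ) (i : ℕ) : Finset (ν → ℕ) :=
  (Pool.Agent.H21.NX.Sx ν 2).filter fun a => ∀ s, a s ≠ 0 → β s = i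

theorem mem_E2 {β : ν → ℕ} {i : ℕ} {a : ν → ℕ} :
    a ∈ E2 β i ↔ ∑ s, a s = 2 ∧ ∀ s, a s ≠ 0 → β s = i := by
  unfold E2
  rw [mem_filter, Pool.Agent.H21.NX.mem_Sx]

/-- Extension by zero. -/
noncomputable def ext0 {A : Finset (ν → ℕ)} (f : {a // a ∈ A} → ℂ) (e : ν → ℕ) : ℂ :=
  if h : e ∈ A then f ⟨e, h⟩ else 0

theorem ext0_coe {A : Finset (ν → ℕ)} (f : {a // a ∈ A} → ℂ) (e : {a // a ∈ A}) :
    ext0 f e.1 = f e := by
  unfold ext0
  rw [dif_pos e.2]

/-- The killing lemma. -/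
theorem kill (β : ν → ℕ) {A : Finset (ν → ℕ)} (i i' : ℕ) {κ : Type}
    (q : κ → ν → ℂ) (hq : ∀ j s, β s = i → q j s = 0) (b : ν → ℕ) (hb : ∑ s, b s = 2)
    (hbA : ∀ a ∈ E2 β i', b + a ∈ A)
    (hspan : ∀ g : {a // a ∈ E2 β i'} → ℂ,
      (∀ j, ∑ a : {a // a ∈ E2 β i'}, (∏ s, q j s ^ a.1 s) * g a = 0) → g = 0)
    (f : {a // a ∈ A} → ℂ)
    (hf : ∀ j, Fat (fun e : {a // a ∈ A} => e.1) 3 (q j) f)
    (hz : ∀ e : {a // a ∈ A}, (∀ s, β s = i → e.1 s = b s) → (∀ s, b s ≤ e.1 s) → f e ≠ 0 →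
      ∑ s, e.1 s = 4 ∧ ∀ s, β s ≠ i' → e.1 s = b s)
    (e : {a // a ∈ A}) (he : ∀ s, β s = i → e.1 s = b s) (he' : ∀ s, b s ≤ e.1 s) : f e = 0 := by
  classical
  by_contra hne
  obtain ⟨h4, he2⟩ := hz e he he' hne
  let g : {a // a ∈ E2 β i'} → ℂ := fun a => (∏ s, (((b + a.1) s).choose (b s) : ℂ)) *
    ext0 f (b + a.1)
  have hg : g = 0 := by
    apply hspan
    intro j
    have h1 := hf j b (by omega)
    have h2 : ∑ e : {a // a ∈ A}, f e * tcr (q j) e.1 b =
        ∑ e ∈ A, ext0 f e * tcr (q j) e b := by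
      rw [← sum_coe_sort A]
      exact sum_congr rfl fun e _ => by rw [ext0_coe]
    have h3 : ∑ e ∈ A, ext0 f e * tcr (q j) e b =
        ∑ a ∈ E2 β i', ext0 f (b + a) * tcr (q j) (b + a) b := by
      symm
      refine sum_of_injOn (fun a => b + a) ?_ ?_ ?_ ?_
      · intro x _ y _ h
        exact add_left_cancel h
      · intro x hx
        exact hbA x hx
      · intro x hx hx'
        by_cases h0 : ext0 f x = 0
        · rw [h0, zero_mul]
        by_cases h5 : ∀ s, b s ≤ x s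
        · by_cases h6 : ∀ s, β s = i → x s = b s
          · exfalso
            apply hx'
            have h7 : f ⟨x, hx⟩ ≠ 0 := by
              rw [← ext0_coe f ⟨x, hx⟩]
              exact h0
            obtain ⟨h8, h9⟩ := hz ⟨x, hx⟩ h6 h5 h7
            refine ⟨fun s => x s - b s, ?_, ?_⟩
            · rw [mem_coe, mem_E2]
              constructor
              · have h10 : ∑ s, (x s - b s) + ∑ s, b s = ∑ s, x s := by
                  rw [← sum_add_distrib]
                  exact sum_congr rfl fun s _ => Nat.sub_add_cancel (h5 s)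
                have h8' : ∑ s, x s = 4 := h8
                omega
              · intro s hs
                by_contra h10
                have h11 : x s = b s := h9 s h10
                omega
            · funext s
              show b s + (x s - b s) = x s
              have := h5 s
              omega
          · push Not at h6
            obtain ⟨s, hs, hs'⟩ := h6
            have h7 : tcr (q j) x b = 0 := by
              unfold tcr
              refine prod_eq_zero (mem_univ s) ?_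
              rw [hq j s hs, zero_pow, mul_zero]
              have := h5 s
              omega
            rw [h7, mul_zero]
        · push Not at h5
          obtain ⟨s, hs⟩ := h5
          have h7 : tcr (q j) x b = 0 := by
            unfold tcr
            refine prod_eq_zero (mem_univ s) ?_
            rw [Nat.choose_eq_zero_of_lt hs, Nat.cast_zero, zero_mul]
          rw [h7, mul_zero]
      · intro x _
        rfl
    have h4 : ∑ a : {a // a ∈ E2 β i'}, (∏ s, q j s ^ a.1 s) * g a =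
        ∑ a ∈ E2 β i', ext0 f (b + a) * tcr (q j) (b + a) b := by
      rw [← sum_coe_sort (E2 β i')]
      refine sum_congr rfl fun a _ => ?_
      have h5 : tcr (q j) (b + a.1) b =
          (∏ s, (((b + a.1) s).choose (b s) : ℂ)) * ∏ s, q j s ^ a.1 s := by
        unfold tcr
        rw [← prod_mul_distrib]
        refine prod_congr rfl fun s _ => ?_
        have h6 : (b + a.1) s - b s = a.1 s := by
          show b s + a.1 s - b s = a.1 s
          omega
        rw [h6]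
      rw [h5]
      simp only [g]
      ring
    rw [h4, ← h3, ← h2]
    exact h1
  have h1 : (fun s => e.1 s - b s) ∈ E2 β i' := by
    rw [mem_E2]
    constructor
    · have h10 : ∑ s, (e.1 s - b s) + ∑ s, b s = ∑ s, e.1 s := by
        rw [← sum_add_distrib]
        exact sum_congr rfl fun s _ => Nat.sub_add_cancel (he' s)
      omega
    · intro s hs
      by_contra h10
      have h11 : e.1 s = b s := he2 s h10
      omega
  have h2 := congrFun hg ⟨_, h1⟩
  have h3 : b + (fun s => e.1 s - b s) = e.1 := by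
    funext s
    show b s + (e.1 s - b s) = e.1 s
    have := he' s
    omega
  simp only [g, h3, Pi.zero_apply, ext0_coe] at h2
  rcases mul_eq_zero.1 h2 with h5 | h5
  · rw [prod_eq_zero_iff] at h5
    obtain ⟨s, _, hs⟩ := h5
    have h6 := Nat.choose_pos (he' s)
    have h7 : ((e.1 s).choose (b s) : ℂ) ≠ 0 := by
      exact_mod_cast h6.ne'
    exact h7 hs
  · exact hne h5

/-- The degree in the block `i`. -/
def Dg (β : ν → ℕ) (i : ℕ) (e : ν → ℕ) : ℕ := ∑ s ∈ univ.filter (fun s => β s = i), e s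

/-- The degree in the blocks from `2` on. -/
def Wd (β : ν → ℕ) (e : ν → ℕ) : ℕ := ∑ s ∈ univ.filter (fun s => 2 ≤ β s), e s

theorem Dg_eq (β : ν → ℕ) (i : ℕ) (e : ν → ℕ) : Dg β i e = ∑ s, if β s = i then e s else 0 := by
  unfold Dg
  rw [sum_filter]

theorem Wd_eq (β : ν → ℕ) (e : ν → ℕ) : Wd β e = ∑ s, if 2 ≤ β s then e s else 0 := by
  unfold Wd
  rw [sum_filter]

theorem Dg_add_Wd (β : ν → ℕ) (e : ν → ℕ) : Dg β 0 e + Dg β 1 e + Wd β e = ∑ s, e s := by
  rw [Dg_eq, Dg_eq, Wd_eq, ← sum_add_distrib, ← sum_add_distrib]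
  refine sum_congr rfl fun s _ => ?_
  rcases Nat.lt_or_ge (β s) 2 with h | h
  · have h1 : β s = 0 ∨ β s = 1 := by omega
    rcases h1 with h1 | h1 <;> simp [h1]
  · have h1 : β s ≠ 0 := by omega
    have h2 : β s ≠ 1 := by omega
    simp [h, h1, h2]

theorem Dg_low (β : ν → ℕ) (e : ν → ℕ) :
    ∑ s ∈ univ.filter (fun s => β s < 2), e s = Dg β 0 e + Dg β 1 e := by
  rw [Dg_eq, Dg_eq, sum_filter, ← sum_add_distrib]
  refine sum_congr rfl fun s _ => ?_
  rcases Nat.lt_or_ge (β s) 2 with h | h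
  · have h1 : β s = 0 ∨ β s = 1 := by omega
    rcases h1 with h1 | h1 <;> simp [h1]
  · have h1 : β s ≠ 0 := by omega
    have h2 : β s ≠ 1 := by omega
    have h3 : ¬ β s < 2 := by omega
    simp [h1, h2, h3]

theorem one_le_Dg {β : ν → ℕ} {i : ℕ} {e : ν → ℕ} (h : ∃ s, β s = i ∧ e s ≠ 0) :
    1 ≤ Dg β i e := by
  obtain ⟨s, hs, hs'⟩ := h
  refine le_trans (Nat.one_le_iff_ne_zero.2 hs') ?_
  exact single_le_sum (f := e) (fun _ _ => Nat.zero_le _) (mem_filter.2 ⟨mem_univ s, hs⟩)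

theorem exists_of_Dg {β : ν → ℕ} {i : ℕ} {e : ν → ℕ} (h : 1 ≤ Dg β i e) :
    ∃ s, β s = i ∧ e s ≠ 0 := by
  by_contra hc
  push Not at hc
  have h1 : Dg β i e = 0 := sum_eq_zero fun s hs => hc s (mem_filter.1 hs).2
  omega

theorem Dg_congr {β : ν → ℕ} {i : ℕ} {e e' : ν → ℕ} (h : ∀ s, β s = i → e s = e' s) :
    Dg β i e = Dg β i e' :=
  sum_congr rfl fun s hs => h s (mem_filter.1 hs).2

/-- The two small blocks. -/
def Two (i i' : ℕ) : Prop := (i = 0 ∧ i' = 1) ∨ (i = 1 ∧ i' = 0)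

theorem Two.add {i i' : ℕ} (h : Two i i') (β : ν → ℕ) (e : ν → ℕ) :
    Dg β i e + Dg β i' e + Wd β e = ∑ s, e s := by
  rw [← Dg_add_Wd β e]
  rcases h with ⟨rfl, rfl⟩ | ⟨rfl, rfl⟩ <;> ring

theorem Two.mem {i i' : ℕ} (h : Two i i') {β : ν → ℕ} {e : ν → ℕ} :
    e ∈ Ex β 4 2 ↔ ∑ s, e s = 4 ∧ 1 ≤ Dg β i e ∧ 1 ≤ Dg β i' e := by
  rw [mem_Ex]
  refine and_congr_right fun _ => ?_
  constructor
  · intro h1
    rcases h with ⟨rfl, rfl⟩ | ⟨rfl, rfl⟩
    · exact ⟨one_le_Dg (h1 0 (by omega)), one_le_Dg (h1 1 (by omega))⟩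
    · exact ⟨one_le_Dg (h1 1 (by omega)), one_le_Dg (h1 0 (by omega))⟩
  · rintro ⟨h1, h2⟩ j hj
    have h3 : j = i ∨ j = i' := by
      rcases h with ⟨rfl, rfl⟩ | ⟨rfl, rfl⟩ <;> omega
    rcases h3 with rfl | rfl
    · exact exists_of_Dg h1
    · exact exists_of_Dg h2

/-- The points of the type `ord 3 {i}` span. -/
def Spn (β : ν → ℕ) (i' : ℕ) {κ : Type} (q : κ → ν → ℂ) : Prop :=
  ∀ g : {a // a ∈ E2 β i'} → ℂ,
      (∀ j, ∑ a : {a // a ∈ E2 β i'}, (∏ s, q j s ^ a.1 s) * g a = 0) → g = 0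

theorem kill2 {β : ν → ℕ} {i i' : ℕ} (hi : Two i i') {κ : Type} {q : κ → ν → ℂ}
    (hq : ∀ j s, β s = i → q j s = 0) (hspan : Spn β i' q) {f : {a // a ∈ Ex β 4 2} → ℂ}
    (hf : ∀ j, Fat (fun e : {a // a ∈ Ex β 4 2} => e.1) 3 (q j) f) (b : ν → ℕ)
    (hb : ∑ s, b s = 2) (hbi : 1 ≤ Dg β i b)
    (hz : ∀ e : {a // a ∈ Ex β 4 2}, (∀ s, β s = i → e.1 s = b s) → (∀ s, b s ≤ e.1 s) →
      f e ≠ 0 → Wd β e.1 ≤ Wd β b)
    (e : {a // a ∈ Ex β 4 2}) (he : ∀ s, β s = i → e.1 s = b s) (he' : ∀ s, b s ≤ e.1 s) :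
    f e = 0 := by
  refine kill β i i' q hq b hb ?_ hspan f hf ?_ e he he'
  · intro a ha
    rw [mem_E2] at ha
    rw [hi.mem]
    have h1 : ∑ s, (b + a) s = 4 := by
      show ∑ s, (b s + a s) = 4
      rw [sum_add_distrib, hb, ha.1]
    have h2 : ∀ k, Dg β k (b + a) = Dg β k b + Dg β k a := fun k => sum_add_distrib
    have h3 : 1 ≤ Dg β i' a := by
      have h4 : ∃ s, a s ≠ 0 := by
        by_contra hc
        push Not at hc
        have h5 : ∑ s, a s = 0 := sum_eq_zero fun s _ => hc s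
        omega
      obtain ⟨s, hs⟩ := h4
      exact one_le_Dg ⟨s, ha.2 s hs, hs⟩
    refine ⟨h1, ?_, ?_⟩
    · rw [h2]
      omega
    · rw [h2]
      omega
  · intro e he he' hne
    refine ⟨(mem_Ex.1 e.2).1, fun s hs => ?_⟩
    have h1 := hz e he he' hne
    by_cases hs' : β s = i
    · exact he s hs'
    have h2 : 2 ≤ β s := by
      rcases hi with ⟨rfl, rfl⟩ | ⟨rfl, rfl⟩ <;> omega
    by_contra h3
    have h4 : b s < e.1 s := lt_of_le_of_ne (he' s) (Ne.symm h3)
    have h5 : Wd β b < Wd β e.1 :=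
      sum_lt_sum (fun s _ => he' s) ⟨s, mem_filter.2 ⟨mem_univ s, h2⟩, h4⟩
    omega

/-- The part of an exponent off the block `i'`. -/
def offb (β : ν → ℕ) (i' : ℕ) (e : ν → ℕ) : ν → ℕ := fun s => if β s = i' then 0 else e s

theorem offb_le (β : ν → ℕ) (i' : ℕ) (e : ν → ℕ) (s : ν) : offb β i' e s ≤ e s := by
  unfold offb
  split_ifs
  · exact Nat.zero_le _
  · exact le_rfl

theorem Two.ne {i i' : ℕ} (h : Two i i') : i ≠ i' := by
  rcases h with ⟨rfl, rfl⟩ | ⟨rfl, rfl⟩ <;> omega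

theorem Two.offb_i {i i' : ℕ} (h : Two i i') (β : ν → ℕ) (e : ν → ℕ) {s : ν} (hs : β s = i) :
    offb β i' e s = e s := by
  unfold offb
  rw [if_neg]
  have := h.ne
  omega

theorem Dg_offb {i i' : ℕ} (h : Two i i') (β : ν → ℕ) (e : ν → ℕ) :
    Dg β i (offb β i' e) = Dg β i e ∧ Dg β i' (offb β i' e) = 0 ∧
      Wd β (offb β i' e) = Wd β e := by
  refine ⟨Dg_congr fun s hs => h.offb_i β e hs, ?_, ?_⟩
  · refine sum_eq_zero fun s hs => ?_
    unfold offb
    rw [if_pos (mem_filter.1 hs).2]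
  · refine sum_congr rfl fun s hs => ?_
    unfold offb
    rw [if_neg]
    have h1 := (mem_filter.1 hs).2
    rcases h with ⟨rfl, rfl⟩ | ⟨rfl, rfl⟩ <;> omega

theorem sum_offb {i i' : ℕ} (h : Two i i') (β : ν → ℕ) (e : ν → ℕ) :
    ∑ s, offb β i' e s = Dg β i e + Wd β e := by
  obtain ⟨h1, h2, h3⟩ := Dg_offb h β e
  rw [← h.add β, h1, h2, h3]
  ring

variable {β : ν → ℕ} {i i' : ℕ} {κ : Type} {q : κ → ν → ℂ} {f : {a // a ∈ Ex β 4 2} → ℂ}

/-- The part of degree `1`, `2`, `1`. -/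
theorem killA (hi : Two i i')
    (hq : ∀ j s, β s = i → q j s = 0) (hspan : Spn β i' q)
    (hf : ∀ j, Fat (fun e : {a // a ∈ Ex β 4 2} => e.1) 3 (q j) f)
    (h0 : ∀ e : {a // a ∈ Ex β 4 2}, Dg β i e.1 + Dg β i' e.1 ≤ 2 → f e = 0)
    (e : {a // a ∈ Ex β 4 2}) (h1 : Dg β i e.1 = 1) (h2 : Dg β i' e.1 = 2) : f e = 0 := by
  have h3 := (mem_Ex.1 e.2).1
  have h4 := hi.add β e.1
  obtain ⟨d1, d2, d3⟩ := Dg_offb hi β e.1
  refine kill2 hi hq hspan hf (offb β i' e.1) ?_ ?_ ?_ e (fun s hs => (hi.offb_i β e.1 hs).symm)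
    (offb_le β i' e.1)
  · rw [sum_offb hi]
    omega
  · rw [d1, h1]
  · intro e' he he' hne
    have h5 := (mem_Ex.1 e'.2).1
    have h6 := hi.add β e'.1
    have h7 : Dg β i e'.1 = Dg β i (offb β i' e.1) := Dg_congr he
    by_contra hc
    apply hne
    apply h0
    omega

/-- The part of degree `1`, `3`, `0`. -/
theorem killB (hi : Two i i')
    (hq : ∀ j s, β s = i → q j s = 0) (hspan : Spn β i' q)
    (hf : ∀ j, Fat (fun e : {a // a ∈ Ex β 4 2} => e.1) 3 (q j) f)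
    (h0 : ∀ e : {a // a ∈ Ex β 4 2}, Dg β i e.1 + Dg β i' e.1 ≤ 2 → f e = 0)
    (e : {a // a ∈ Ex β 4 2}) (h1 : Dg β i e.1 = 1) (h2 : Dg β i' e.1 = 3) : f e = 0 := by
  have h3 := (mem_Ex.1 e.2).1
  have h4 := hi.add β e.1
  obtain ⟨d1, d2, d3⟩ := Dg_offb hi β e.1
  obtain ⟨s₀, hs₀, hs₀'⟩ := exists_of_Dg (β := β) (i := i') (e := e.1) (by omega)
  let b : ν → ℕ := fun s => if s = s₀ then 1 else offb β i' e.1 s
  have hoff : offb β i' e.1 s₀ = 0 := by
    unfold offb
    rw [if_pos hs₀]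
  have hb : ∀ s, b s = offb β i' e.1 s + if s = s₀ then 1 else 0 := by
    intro s
    show (if s = s₀ then 1 else offb β i' e.1 s) = _
    split_ifs with h
    · rw [h, hoff]
    · rw [add_zero]
  have hbsum : ∑ s, b s = 2 := by
    rw [sum_congr rfl fun s _ => hb s, sum_add_distrib, sum_offb hi, sum_ite_eq' univ s₀ fun _ => 1,
      if_pos (mem_univ s₀)]
    omega
  have hbi : ∀ s, β s = i → b s = e.1 s := by
    intro s hs
    have h5 : s ≠ s₀ := by
      rintro rfl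
      exact hi.ne (hs.symm.trans hs₀)
    rw [hb, if_neg h5, add_zero, hi.offb_i β e.1 hs]
  have hDi : Dg β i b = 1 := by rw [Dg_congr hbi, h1]
  refine kill2 hi hq hspan hf b hbsum hDi.ge ?_ e (fun s hs => (hbi s hs).symm) ?_
  · intro e' he he' hne
    have h5 := (mem_Ex.1 e'.2).1
    have h6 := hi.add β e'.1
    have h7 : Dg β i e'.1 = Dg β i b := Dg_congr he
    have h8 := ((hi.mem).1 e'.2).2.2
    by_contra hc
    apply hne
    by_cases h9 : Dg β i' e'.1 = 2
    · exact killA hi hq hspan hf h0 e' (by omega) h9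
    · apply h0
      omega
  · intro s
    rw [hb]
    split_ifs with h
    · rw [h, hoff]
      omega
    · rw [add_zero]
      exact offb_le β i' e.1 s

/-- The part of degree `2`, `2`, `0`. -/
theorem killC (hi : Two i i')
    (hq : ∀ j s, β s = i → q j s = 0) (hspan : Spn β i' q)
    (hf : ∀ j, Fat (fun e : {a // a ∈ Ex β 4 2} => e.1) 3 (q j) f)
    (h0 : ∀ e : {a // a ∈ Ex β 4 2}, Dg β i e.1 = 2 → Dg β i' e.1 = 1 → f e = 0)
    (e : {a // a ∈ Ex β 4 2}) (h1 : Dg β i e.1 = 2) (h2 : Dg β i' e.1 = 2) : f e = 0 := by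
  have h3 := (mem_Ex.1 e.2).1
  have h4 := hi.add β e.1
  obtain ⟨d1, d2, d3⟩ := Dg_offb hi β e.1
  refine kill2 hi hq hspan hf (offb β i' e.1) ?_ ?_ ?_ e (fun s hs => (hi.offb_i β e.1 hs).symm)
    (offb_le β i' e.1)
  · rw [sum_offb hi]
    omega
  · omega
  · intro e' he he' hne
    have h5 := (mem_Ex.1 e'.2).1
    have h6 := hi.add β e'.1
    have h7 : Dg β i e'.1 = Dg β i (offb β i' e.1) := Dg_congr he
    have h8 := ((hi.mem).1 e'.2).2.2
    by_contra hc
    apply hne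
    apply h0
    · omega
    · omega

/-- All parts. -/
theorem kill_all {κ' : Type} {q' : κ' → ν → ℂ}
    (hq : ∀ j s, β s = 0 → q j s = 0) (hspan : Spn β 1 q)
    (hf : ∀ j, Fat (fun e : {a // a ∈ Ex β 4 2} => e.1) 3 (q j) f)
    (hq' : ∀ j s, β s = 1 → q' j s = 0) (hspan' : Spn β 0 q')
    (hf' : ∀ j, Fat (fun e : {a // a ∈ Ex β 4 2} => e.1) 3 (q' j) f)
    (h0 : ∀ e : {a // a ∈ Ex β 4 2}, Dg β 0 e.1 + Dg β 1 e.1 ≤ 2 → f e = 0) : f = 0 := by
  have hT : Two 0 1 := Or.inl ⟨rfl, rfl⟩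
  have hT' : Two 1 0 := Or.inr ⟨rfl, rfl⟩
  have h0' : ∀ e : {a // a ∈ Ex β 4 2}, Dg β 1 e.1 + Dg β 0 e.1 ≤ 2 → f e = 0 :=
    fun e he => h0 e (by omega)
  funext e
  have h1 := hT.mem.1 e.2
  have h2 := hT.add β e.1
  by_cases c1 : Dg β 0 e.1 + Dg β 1 e.1 ≤ 2
  · exact h0 e c1
  by_cases c2 : Dg β 0 e.1 = 1
  · by_cases c3 : Dg β 1 e.1 = 2
    · exact killA hT hq hspan hf h0 e c2 c3
    · exact killB hT hq hspan hf h0 e c2 (by omega)
  by_cases c4 : Dg β 1 e.1 = 1
  · by_cases c3 : Dg β 0 e.1 = 2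
    · exact killA hT' hq' hspan' hf' h0' e c4 c3
    · exact killB hT' hq' hspan' hf' h0' e c4 (by omega)
  refine killC hT hq hspan hf ?_ e (by omega) (by omega)
  intro e' he he'
  exact killA hT' hq' hspan' hf' h0' e' he' he

end

end Pool.Agent.KZ
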