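import Pool.Agent.KZ.Defs

/-!
# KZ4, TOP: the two input statements for general positions

`GAMMA2`: a form of the level `2` which satisfies the conditions of the points is zero if its part `G` of
degree `1`, `1`, `2` in the blocks `0`, `1` and the other variables is.

`CV2`: the values of `G` lie in a space of dimension `c ^ 2 - T` (for a triple point `p = l + a + b`:
`F(p, p, w, w') = 2 G(w, w')(a, b)`).
-/

set_option autoImplicit false
set_option linter.unusedSectionVars false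

namespace Pool.Agent.KZ

open Finset MvPolynomial Pool.Agent.H51.TB Pool.Agent.H54.V7 Pool.Agent.V7.ST
open Pool.Agent.V7 (msk Ex blk)

def GAMMA2 (c : ℕ) : Prop := ∃ e : ℝ, 0 < e ∧ ∃ n₀ : ℕ, ∀ n, n₀ ≤ n →
  ∀ (m : ℕ) (φ : (Fin 2 × Fin c) ⊕ Fin m ≃ Fin n), Pool.Agent.V7.Top.IsB φ (blk c n) →
  ∀ k, (k = 5 ∨ k = 6) → ∀ a : L2, Cls2' c n e k a → a.x = 0 →
  ∀ (κ : Type) [Fintype κ] (rest : κ → Kd), (univ : Finset κ).val.map rest = a.ms →
    Gn κ (Fin n × Fin 3) fun p => ∀ f ∈ (LS (blk c n) 2).V rest p,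
      Pool.Agent.V7.Top.Gam φ f = 0 → f = 0

def CV2 (c : ℕ) : Prop := ∃ n₀ : ℕ, ∀ n, n₀ ≤ n →
  ∀ (m : ℕ) (φ : (Fin 2 × Fin c) ⊕ Fin m ≃ Fin n), Pool.Agent.V7.Top.IsB φ (blk c n) →
  ∀ k, (k = 5 ∨ k = 6) → ∀ a : L2, k * a.T = c ^ 2 →
  ∀ (κ : Type) [Fintype κ] (rest : κ → Kd), (univ : Finset κ).val.map rest = a.ms →
    Gn κ (Fin n × Fin 3) fun p => ∃ B : Submodule ℂ ((Fin 2 → Fin c) → ℂ),
      Module.finrank ℂ B + a.T = c ^ 2 ∧ ∀ f ∈ (LS (blk c n) 2).V rest p, ∀ α,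
        (fun x => coeff α (Pool.Agent.V7.Top.Gam φ f x)) ∈ B

end Pool.Agent.KZ
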