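import Pool.Agent.KZ.Top.Rel
import Pool.Agent.KZ.Top.Stmt
import Pool.Agent.V7.Top.Prop

/-!
# KZ4, TOP: exactness on the level `2`
-/

set_option autoImplicit false
set_option linter.unusedSectionVars false

namespace Pool.Agent.KZ

open Finset Module MvPolynomial Pool.Agent.H51.TB Pool.Agent.V7.ST Topology
open Pool.Agent.V7 (msk Ex blk phn isB_phn)
open Pool.Agent.V7.Top (Gam HasX IsB SF zp)

/-- The vector valued form has degree `2`. -/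
theorem Gam_hom4 {ν : Type} [Fintype ν] [DecidableEq ν] {c m : ℕ}
    (φ : (Fin 2 × Fin c) ⊕ Fin m ≃ ν) (β : ν → ℕ) (f : {e // e ∈ Ex β 4 2} → ℂ)
    (a : Fin 2 → Fin c) : (Gam φ f a).IsHomogeneous 2 := by
  rw [Pool.Agent.V7.Top.Gam_apply]
  refine IsHomogeneous.sum _ _ _ fun e _ => ?_
  split_ifs with h
  · apply isHomogeneous_monomial
    have h1 := (Pool.Agent.V7.mem_Ex.1 e.2).1
    rw [Pool.Agent.V7.Top.sum_split φ, h.sum] at h1
    rw [Finsupp.degree_eq_sum]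
    simp only [Pool.Agent.V7.Top.zp_apply]
    omega
  · exact isHomogeneous_zero _ _ _

/-- The position of a point on `L_0` and `L_1`. -/
noncomputable def posq {ν : Type} {c m : ℕ} (φ : (Fin 2 × Fin c) ⊕ Fin m ≃ ν) (z : Fin m → ℂ) :
    ν × Fin 3 → ℂ :=
  fun s => Pool.Agent.V7.Top.posz φ z (Sum.inl s.1)

theorem htop4 {ν : Type} [Fintype ν] [DecidableEq ν] {c m : ℕ}
    {φ : (Fin 2 × Fin c) ⊕ Fin m ≃ ν} {β : ν → ℕ} (hβ : IsB φ β) (z : Fin m → ℂ)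
    {A : Finset (ν → ℕ)} (f : {e // e ∈ A} → ℂ)
    (hf : f ∈ (LSA β A).V (fun _ : Unit => Kd.ord 3 {0, 1}) fun _ => posq φ z)
    (a : Fin 2 → Fin c) : eval z (Gam φ f a) = 0 := by
  rw [mem_LSA] at hf
  have h1 := hf () 0
  refine Pool.Agent.V7.Top.htop (M := 3) hβ rfl z f ?_ a
  rw [Pool.Agent.V7.mem_LSA]
  intro _
  have h2 : ({0, 1} : Finset ℕ) = range 2 := rfl
  have h3 : Pool.Agent.H54.V7.Fat (fun e : {a // a ∈ A} => e.1) 3
      (msk β (range 2) fun s => Pool.Agent.V7.Top.posz φ z (Sum.inl s)) f := by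
    rw [← h2]
    exact h1
  exact h3

theorem xx_pos : 0 < xx := by
  unfold xx
  have h1 : Real.sqrt (2 / 3) < 1 := by
    rw [Real.sqrt_lt' one_pos]
    norm_num
  linarith

/-- The choice of the number `N₀`. -/
theorem numx (c : ℕ) {x δ : ℝ} (hx : 0 < x) (hδ : 0 < δ) (hδ1 : δ ≤ 1) : ∃ n₀ : ℕ, 1 ≤ n₀ ∧
    ∀ n : ℕ, n₀ ≤ n → ∀ N : ℕ, x / 2 * (n : ℝ) ^ 2 - x * δ / 8 * (n : ℝ) ^ 2 ≤ N →
      ∃ N₀ : ℕ, (2 * c ^ 2) * (2 * n) ^ (2 - 1) < N₀ ∧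
        (1 - δ) * (x / 2 * (n : ℝ) ^ 2) + (c : ℝ) ^ 2 < N₀ ∧ N₀ + 1 ≤ N := by
  obtain ⟨n₁, hn₁⟩ := exists_nat_ge (8 * ((c : ℝ) ^ 2 + 2) / (x * δ) + 4 * (4 * (c : ℝ) ^ 2 + 2) / x)
  refine ⟨n₁ + 1, by omega, fun n hn N hN => ?_⟩
  have hn1 : (1 : ℝ) ≤ n := by
    have : 1 ≤ n := by omega
    exact_mod_cast this
  have hnn : (n₁ : ℝ) ≤ n := by
    have : n₁ ≤ n := by omega
    exact_mod_cast this
  have hxδ : 0 < x * δ := mul_pos hx hδ
  have p1 : 0 ≤ 8 * ((c : ℝ) ^ 2 + 2) / (x * δ) := by positivity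
  have p2 : 0 ≤ 4 * (4 * (c : ℝ) ^ 2 + 2) / x := by positivity
  have q1 : 8 * ((c : ℝ) ^ 2 + 2) ≤ n * (x * δ) := by
    rw [← div_le_iff₀ hxδ]
    linarith
  have q2 : 4 * (4 * (c : ℝ) ^ 2 + 2) ≤ n * x := by
    rw [← div_le_iff₀ hx]
    linarith
  have hc0 : (0 : ℝ) ≤ (c : ℝ) ^ 2 := by positivity
  have r1 : (8 * ((c : ℝ) ^ 2 + 2)) * n ≤ x * δ * (n : ℝ) ^ 2 := by nlinarith
  have r2 : 4 * (4 * (c : ℝ) ^ 2 + 2) * n ≤ x * (n : ℝ) ^ 2 := by nlinarith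
  have r1' : 8 * ((c : ℝ) ^ 2 + 2) ≤ x * δ * (n : ℝ) ^ 2 := by nlinarith
  have hY : 0 ≤ (1 - δ / 2) * (x / 2 * (n : ℝ) ^ 2) := by
    apply mul_nonneg (by linarith)
    positivity
  have hf1 := Nat.floor_le hY
  have hf2 := Nat.lt_floor_add_one ((1 - δ / 2) * (x / 2 * (n : ℝ) ^ 2))
  refine ⟨⌊(1 - δ / 2) * (x / 2 * (n : ℝ) ^ 2)⌋₊, ?_, ?_, ?_⟩
  · have h : (((2 * c ^ 2) * (2 * n) ^ (2 - 1) : ℕ) : ℝ) <
        (⌊(1 - δ / 2) * (x / 2 * (n : ℝ) ^ 2)⌋₊ : ℝ) := by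
      push_cast
      have h1 : (2 * (n : ℝ)) ^ (2 - 1) = 2 * n := by norm_num
      rw [h1]
      nlinarith [mul_nonneg (sub_nonneg.2 hδ1) (by positivity : (0 : ℝ) ≤ x / 2 * (n : ℝ) ^ 2)]
    exact_mod_cast h
  · nlinarith
  · have h : ((⌊(1 - δ / 2) * (x / 2 * (n : ℝ) ^ 2)⌋₊ + 1 : ℕ) : ℝ) ≤ (N : ℝ) := by
      push_cast
      nlinarith
    exact_mod_cast h

/-- **TOP.** Exactness on the level `2`. -/
theorem prop2_core (c : ℕ) (hc : 1 ≤ c) (hA : ALPHA2 c) (hB : BETA c) (hG : GAMMA2 c) (hC : CV2 c) : PROP2 c := by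
  classical
  obtain ⟨eA, heA, nA, hA⟩ := hA
  obtain ⟨δ, hδ, eB, heB, nB, hB⟩ := hB
  obtain ⟨eG, heG, nG, hG⟩ := hG
  obtain ⟨nC, hC⟩ := hC
  have hδ' : 0 < min δ 1 := lt_min hδ one_pos
  obtain ⟨n₀, hn₀1, hnum⟩ := numx c xx_pos hδ' (min_le_right δ 1)
  have hexx : 0 < xx * min δ 1 / 8 := by
    have := mul_pos xx_pos hδ'
    linarith
  refine ⟨min (xx * min δ 1 / 8) (min eA (min eG eB)),
    lt_min hexx (lt_min heA (lt_min heG heB)),
    n₀ + nA + nG + nB + nC + 2 * c + 2, fun n hn k hk a ha => ?_⟩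
  set e := min (xx * min δ 1 / 8) (min eA (min eG eB)) with he
  have e1 : e ≤ xx * min δ 1 / 8 := min_le_left _ _
  have e2 : e ≤ eA := (min_le_right _ _).trans (min_le_left _ _)
  have e3 : e ≤ eG := (min_le_right _ _).trans ((min_le_right _ _).trans (min_le_left _ _))
  have e4 : e ≤ eB := (min_le_right _ _).trans ((min_le_right _ _).trans (min_le_right _ _))
  have hn0 : (0 : ℝ) ≤ (n : ℝ) := Nat.cast_nonneg _
  -- without the points on `L_0` and `L_1`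
  obtain ⟨a', ha'⟩ : ∃ a' : L2, a' = { a with x := 0 } := ⟨_, rfl⟩
  have hx' : a'.x = 0 := by rw [ha']
  have hT' : a'.T = a.T := by
    rw [ha']
    rfl
  have hcls : ∀ e', e ≤ e' → Cls2' c n e' k a' := by
    intro e' he'
    rw [ha']
    exact ⟨⟨ha.p, ha.q, ha.r, ha.d, ha.py, ha.qy, ha.z, ha.pu, ha.w⟩, ha.T,
      ha.U.trans (mul_le_mul_of_nonneg_right he' hn0), ha.Y.trans (mul_le_mul_of_nonneg_right he' hn0)⟩
  have hms : a.ms = a'.ms + Multiset.replicate a.x (Kd.ord 3 {0, 1}) := by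
    rw [ha']
    simp only [L2.ms, Multiset.replicate_zero]
    ac_rfl
  have hv : v2 c n a = v2 c n a' - a.x * ((c : ℤ) ^ 2 - a.T) := by
    rw [ha']
    unfold v2 L2.T L2.U L2.Y
    simp only
    push_cast
    ring
  obtain ⟨rest, hrest, hgd⟩ := exists_conf (LS (blk c n) 2) a'.ms
  have hkc : 2 * c ≤ n := by omega
  -- the numbers
  have hN : xx / 2 * (n : ℝ) ^ 2 - xx * min δ 1 / 8 * (n : ℝ) ^ 2 ≤ (a.x : ℝ) := by
    have h1 := (abs_le.1 ha.x).1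
    have h2 : e * (n : ℝ) ^ 2 ≤ xx * min δ 1 / 8 * (n : ℝ) ^ 2 :=
      mul_le_mul_of_nonneg_right e1 (by positivity)
    linarith
  obtain ⟨N₀, hN1, hN2, hN3⟩ := hnum n (by omega) a.x hN
  have hb := isB_phn c 2 n hc hkc
  obtain ⟨p₁, hp₁⟩ := hB n (by omega) _ (phn c 2 n hkc) hb k hk a' (hcls eB e4) hx' _ rest hrest
  have hg := (hG n (by omega) _ (phn c 2 n hkc) hb k hk a' (hcls eG e3) hx' _ rest hrest).and
    ((hC n (by omega) _ (phn c 2 n hkc) hb k hk a' (by rw [hT']; exact ha.T) _ rest hrest).and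
      (gn_gd (LS (blk c n) 2) rest))
  obtain ⟨p, hp, hpG, ⟨B, hBT, hpB⟩, hpd⟩ := Pool.Agent.V7.BE.Gn.near hg p₁ _ hp₁
  have hTc : a.T ≤ c ^ 2 := by rw [← hT']; omega
  have hBf : finrank ℂ B + a.T = c ^ 2 := by rw [← hT']; exact hBT
  have key := Top.top_rel (phn c 2 n hkc) (LS (blk c n) 2) rest (Kd.ord 3 {0, 1}) (M := 2)
    (Gam_hom4 _ _) (posq (phn c 2 n hkc)) (fun z f hf b => htop4 hb z f hf b) p B hpB hpG N₀
    (Pool.Agent.V7.top_h1 (by norm_num) (Nat.sub_le _ _) (by omega) (lt_of_le_of_lt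
      (Nat.mul_le_mul_right _ (by omega : 2 * finrank ℂ B - 2 ≤ 2 * c ^ 2)) hN1)) (by
      intro F hFB hF hF'
      have hlt : finrank ℂ F < finrank ℂ B :=
        Submodule.finrank_lt_finrank_of_lt (lt_of_le_of_ne hFB hF')
      have h4 := hp F hF (by omega)
      have hf : 1 ≤ finrank ℂ F := Nat.one_le_iff_ne_zero.2 fun h => hF (Submodule.finrank_eq_zero.1 h)
      have hf' : (1 : ℝ) ≤ finrank ℂ F := by exact_mod_cast hf
      have h5 : ((finrank ℂ F * (finrank ℂ B - finrank ℂ F) : ℕ) : ℝ) ≤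
          finrank ℂ F * (c : ℝ) ^ 2 := by
        have : finrank ℂ F * (finrank ℂ B - finrank ℂ F) ≤ finrank ℂ F * c ^ 2 :=
          Nat.mul_le_mul_left _ (by omega)
        exact_mod_cast this
      have hX0 : (0 : ℝ) ≤ xx / 2 * (n : ℝ) ^ 2 := by
        have := xx_pos
        positivity
      have h6 : (1 - δ) * (finrank ℂ F : ℝ) * (xx / 2 * (n : ℝ) ^ 2) ≤
          (1 - min δ 1) * (finrank ℂ F : ℝ) * (xx / 2 * (n : ℝ) ^ 2) := by
        apply mul_le_mul_of_nonneg_right _ hX0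
        apply mul_le_mul_of_nonneg_right _ (by linarith)
        have := min_le_left δ 1
        linarith
      have h7 : (finrank ℂ F : ℝ) * ((1 - min δ 1) * (xx / 2 * (n : ℝ) ^ 2) + (c : ℝ) ^ 2) <
          finrank ℂ F * N₀ := mul_lt_mul_of_pos_left hN2 (by linarith)
      have h8 : ((finrank ℂ (SF (phn c 2 n hkc) ((LS (blk c n) 2).V rest p) F) +
          finrank ℂ F * (finrank ℂ B - finrank ℂ F) : ℕ) : ℝ) < ((finrank ℂ F * N₀ : ℕ) : ℝ) := by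
        rw [Nat.cast_add, Nat.cast_mul (finrank ℂ F) N₀]
        nlinarith
      exact_mod_cast h8) a.x hN3
  -- conclusion
  have hle : (H2 c n a' : ℤ) ≤ v2 c n a' := hA n (by omega) k hk a' (hcls eA e2) hx'
  have hgs : H2 c n a = (LS (blk c n) 2).gd (Sum.elim rest fun _ : Fin a.x => Kd.ord 3 {0, 1}) := by
    unfold H2
    rw [gd_eq_gM, map_elim, hrest, Pool.Agent.V7.ST.map_const, Fintype.card_fin, ← hms]
  rw [hgs, hv]
  have hH : H2 c n a' = finrank ℂ ((LS (blk c n) 2).V rest p) := by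
    rw [hpd, hgd]
    rfl
  rw [← hH] at key
  have h9 : (((LS (blk c n) 2).gd (Sum.elim rest fun _ : Fin a.x => Kd.ord 3 {0, 1}) : ℕ) : ℤ) ≤
      max 0 ((H2 c n a' : ℤ) - (finrank ℂ B * a.x : ℕ)) := by
    omega
  refine h9.trans (max_le_max le_rfl ?_)
  have h10 : ((finrank ℂ B * a.x : ℕ) : ℤ) = a.x * ((c : ℤ) ^ 2 - a.T) := by
    have h11 : (finrank ℂ B : ℤ) = (c : ℤ) ^ 2 - a.T := by
      have : ((finrank ℂ B + a.T : ℕ) : ℤ) = ((c ^ 2 : ℕ) : ℤ) := by rw [hBf]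
      push_cast at this
      linarith
    push_cast
    rw [h11]
    ring
  rw [h10]
  linarith

end Pool.Agent.KZ
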